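import Mathlib

set_option autoImplicit false

noncomputable section

open scoped ENNReal Topology
open Filter

namespace Pool.Agent.R302.FS

/-- The `c_0`-sum of a sequence of normed spaces `E n`: the closed subspace of their
`ell_infinity`-sum (Mathlib's `lp E ∞`, with the supremum norm) made of the sequences whose norms
tend to zero. -/
def c0Sum (𝕜 : Type) [RCLike 𝕜] (E : ℕ → Type) [∀ n, NormedAddCommGroup (E n)]
    [∀ n, NormedSpace 𝕜 (E n)] : Submodule 𝕜 (lp E ∞) where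
  carrier := {x | Tendsto (fun n => ‖x n‖) atTop (𝓝 0)}
  zero_mem' := by
    simp
  add_mem' := by
    intro a b ha hb
    have hab : Tendsto (fun n => ‖a n‖ + ‖b n‖) atTop (𝓝 0) := by
      simpa using ha.add hb
    refine squeeze_zero (fun n => norm_nonneg _) (fun n => ?_) hab
    exact norm_add_le _ _
  smul_mem' := by
    intro c a ha
    have h : Tendsto (fun n => ‖c‖ * ‖a n‖) atTop (𝓝 0) := by
      simpa using ha.const_mul ‖c‖
    refine squeeze_zero (fun n => norm_nonneg _) (fun n => ?_) h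
    exact (norm_smul_le _ _)

/-- The sequence space `ell_p` over `𝕜`. -/
abbrev Ell (𝕜 : Type) [RCLike 𝕜] (p : ℝ≥0∞) : Type := lp (fun _ : ℕ => 𝕜) p

/-- The space `c_0` of null sequences over `𝕜`. -/
abbrev C0 (𝕜 : Type) [RCLike 𝕜] : Type := c0Sum 𝕜 (fun _ : ℕ => 𝕜)

/-- The `ell_p`-sum of the Hilbert spaces `ell_2^n`. -/
abbrev HilbSum (𝕜 : Type) [RCLike 𝕜] (p : ℝ≥0∞) : Type :=
  lp (fun n : ℕ => EuclideanSpace 𝕜 (Fin n)) p

/-- The `c_0`-sum of the spaces `ell_infinity^{k n}`. -/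
abbrev SupSum (𝕜 : Type) [RCLike 𝕜] (k : ℕ → ℕ) : Type := c0Sum 𝕜 (fun n : ℕ => Fin (k n) → 𝕜)

/-- `K` is an operator as in the definition of the ideal: `K = diag (Kn)` where the linear maps
`Kn n : ell_2^n → ell_infinity^{k n}` satisfy `‖x‖ ≤ ‖Kn n x‖ ≤ 2 ‖x‖`. -/
structure IsKMap {𝕜 : Type} [RCLike 𝕜] {p : ℝ≥0∞} [Fact (1 ≤ p)] (k : ℕ → ℕ)
    (Kn : ∀ n : ℕ, EuclideanSpace 𝕜 (Fin n) →ₗ[𝕜] (Fin (k n) → 𝕜))
    (K : HilbSum 𝕜 p →L[𝕜] SupSum 𝕜 k) : Prop where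
  /-- the lower estimate -/
  lower : ∀ (n : ℕ) (x : EuclideanSpace 𝕜 (Fin n)), ‖x‖ ≤ ‖Kn n x‖
  /-- the upper estimate -/
  upper : ∀ (n : ℕ) (x : EuclideanSpace 𝕜 (Fin n)), ‖Kn n x‖ ≤ 2 * ‖x‖
  /-- `K` is the diagonal operator -/
  diag : ∀ (x : HilbSum 𝕜 p) (n : ℕ), (K x : lp (fun n : ℕ => Fin (k n) → 𝕜) ∞) n = Kn n (x n)

/-- Finitely strictly singular operators: for every `ε > 0` there is `n` such that every subspace
`E` of the domain with `dim E ≥ n` contains `x ≠ 0` with `‖T x‖ < ε ‖x‖`. -/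
def FinStrictlySingular {𝕜 : Type} [RCLike 𝕜] {X Y : Type} [NormedAddCommGroup X]
    [NormedSpace 𝕜 X] [NormedAddCommGroup Y] [NormedSpace 𝕜 Y] (T : X →L[𝕜] Y) : Prop :=
  ∀ ε : ℝ, 0 < ε → ∃ n : ℕ, ∀ E : Submodule 𝕜 X, (n : Cardinal) ≤ Module.rank 𝕜 E →
    ∃ x ∈ E, x ≠ 0 ∧ ‖T x‖ < ε * ‖x‖

/-- The component `𝒥^T(X, Y)` of the closed operator ideal generated by `T : V → W`: the closure
in the operator norm of the set of finite sums `∑ A i ∘ T ∘ B i`. -/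
def closedIdeal {𝕜 : Type} [RCLike 𝕜] {V W : Type} [NormedAddCommGroup V]
    [NormedSpace 𝕜 V] [NormedAddCommGroup W] [NormedSpace 𝕜 W] (T : V →L[𝕜] W)
    (X Y : Type) [NormedAddCommGroup X] [NormedSpace 𝕜 X] [NormedAddCommGroup Y]
    [NormedSpace 𝕜 Y] : Set (X →L[𝕜] Y) :=
  closure {S | ∃ (r : ℕ) (A : Fin r → (W →L[𝕜] Y)) (B : Fin r → (X →L[𝕜] V)),
    S = ∑ i, (A i).comp (T.comp (B i))}

end Pool.Agent.R302.FS
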