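import Pool.Agent.R302.FS.Defs

set_option autoImplicit false

noncomputable section

open scoped ENNReal Topology
open Filter

namespace Pool.Agent.R302.FS

variable {𝕜 : Type} [RCLike 𝕜]

/-- few large coordinates, uniformly on the unit ball -/
def Few {X : Type} [NormedAddCommGroup X] [NormedSpace 𝕜 X] (φ : ℕ → X → 𝕜) : Prop :=
  ∀ ε : ℝ, 0 < ε → ∃ S : ℕ, ∀ x : X, ‖x‖ ≤ 1 → ∀ F : Finset ℕ, (∀ i ∈ F, ε ≤ ‖φ i x‖) →
    F.card ≤ S

/-- coordinates on `c_0` -/
def co (i : ℕ) : C0 𝕜 →ₗ[𝕜] 𝕜 where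
  toFun := fun y => y.1 i
  map_add' := fun _ _ => rfl
  map_smul' := fun _ _ => rfl

theorem coord_le_norm (y : C0 𝕜) (i : ℕ) : ‖y.1 i‖ ≤ ‖y‖ := by
  have := lp.norm_apply_le_norm (p := ∞) (by simp) y.1 i
  exact this

theorem norm_le_of_coord (y : C0 𝕜) (C : ℝ) (hC : 0 ≤ C) (h : ∀ i, ‖y.1 i‖ ≤ C) : ‖y‖ ≤ C := by
  have := lp.norm_le_of_forall_le (f := y.1) hC h
  exact this

theorem finite_large (y : C0 𝕜) (δ : ℝ) (hδ : 0 < δ) : {i | δ ≤ ‖y.1 i‖}.Finite := by
  have h : Tendsto (fun n => ‖y.1 n‖) atTop (𝓝 0) := y.2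
  have h2 : ∀ᶠ n in atTop, ‖y.1 n‖ < δ := h.eventually_lt_const hδ
  rw [← Nat.cofinite_eq_atTop, Filter.eventually_cofinite] at h2
  refine h2.subset ?_
  intro i hi
  simpa using hi

theorem fss_of_few {X : Type} [NormedAddCommGroup X] [NormedSpace 𝕜 X] (T : X →L[𝕜] C0 𝕜)
    (h : Few (𝕜 := 𝕜) (fun i (x : X) => (T x).1 i)) : FinStrictlySingular T := by
  classical
  intro ε hε
  obtain ⟨S, hS⟩ := h ε hε
  refine ⟨S + 1, ?_⟩
  intro E hE
  by_contra hcon
  push Not at hcon
  obtain ⟨f, hf⟩ := Module.le_rank_iff_exists_linearMap.1 hE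
  let L : (Fin (S + 1) → 𝕜) →ₗ[𝕜] X := E.subtype ∘ₗ f
  have hLinj : Function.Injective L := by
    intro a b hab
    exact hf (E.injective_subtype hab)
  have hLmem : ∀ c, L c ∈ E := fun c => (f c).2
  have hTL : ∀ c, ε * ‖L c‖ ≤ ‖T (L c)‖ := by
    intro c
    by_cases h0 : L c = 0
    · simp [h0]
    · exact hcon _ (hLmem c) h0
  have hLcont : Continuous L := L.continuous_of_finiteDimensional
  obtain ⟨K, hK0, hK⟩ := L.exists_antilipschitzWith (LinearMap.ker_eq_bot.2 hLinj)
  have hKb : ∀ c, ‖c‖ ≤ K * ‖L c‖ := by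
    intro c
    have := hK.le_mul_dist c 0
    simpa [dist_eq_norm] using this
  let U : Set (Fin (S + 1) → 𝕜) := {c | ‖T (L c)‖ ≤ 1}
  have hUclosed : IsClosed U :=
    isClosed_le ((T.continuous.comp hLcont).norm) continuous_const
  have hUbdd : Bornology.IsBounded U := by
    refine (Metric.isBounded_iff_subset_closedBall 0).2 ⟨K * (1 / ε), ?_⟩
    intro c hc
    rw [mem_closedBall_zero_iff]
    refine (hKb c).trans ?_
    refine mul_le_mul_of_nonneg_left ?_ K.2
    rw [le_div_iff₀ hε, mul_comm]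
    exact (hTL c).trans hc
  have hUcomp : IsCompact U := Metric.isCompact_of_isClosed_isBounded hUclosed hUbdd
  have hUne : U.Nonempty := ⟨0, by simp [U]⟩
  obtain ⟨c, hc⟩ := hUcomp.extremePoints_nonempty hUne
  have hcU : c ∈ U := hc.1
  set y : C0 𝕜 := T (L c) with hy
  have hfin := finite_large y (1/2) (by norm_num)
  let J : Finset ℕ := hfin.toFinset
  let I : Finset ℕ := J.filter (fun i => ‖y.1 i‖ = 1)
  have hIcard : S + 1 ≤ I.card := by
    by_contra hlt
    push Not at hlt
    -- the restriction map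
    let G : (Fin (S + 1) → 𝕜) →ₗ[𝕜] (I → 𝕜) :=
      LinearMap.pi (fun i : I => (co (𝕜 := 𝕜) (i : ℕ)) ∘ₗ (T : X →ₗ[𝕜] C0 𝕜) ∘ₗ L)
    have hker : LinearMap.ker G ≠ ⊥ := by
      apply LinearMap.ker_ne_bot_of_finrank_lt
      simpa using hlt
    obtain ⟨z, hz, hz0⟩ := (Submodule.ne_bot_iff _).1 hker
    have hzI : ∀ i ∈ I, (T (L z)).1 i = 0 := by
      intro i hi
      have : G z = 0 := hz
      have := congrFun this ⟨i, hi⟩
      exact this
    -- the gap
    have hgap : ∃ δ : ℝ, 0 < δ ∧ ∀ i, i ∉ I → ‖y.1 i‖ ≤ 1 - δ := by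
      by_cases hne : (J.filter (fun i => ‖y.1 i‖ ≠ 1)).Nonempty
      · obtain ⟨i0, hi0, hmax⟩ := Finset.exists_max_image _ (fun i => ‖y.1 i‖) hne
        have hi0lt : ‖y.1 i0‖ < 1 := by
          refine lt_of_le_of_ne ((coord_le_norm y i0).trans hcU) ?_
          exact (Finset.mem_filter.1 hi0).2
        refine ⟨min (1/2) (1 - ‖y.1 i0‖), lt_min (by norm_num) (by linarith), ?_⟩
        intro i hi
        by_cases hJ : i ∈ J
        · have hi' : i ∈ J.filter (fun i => ‖y.1 i‖ ≠ 1) := by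
            refine Finset.mem_filter.2 ⟨hJ, ?_⟩
            intro h1
            exact hi (Finset.mem_filter.2 ⟨hJ, h1⟩)
          have := hmax i hi'
          have h3 := min_le_right (1/2) (1 - ‖y.1 i0‖)
          linarith
        · have : ¬ (1/2 ≤ ‖y.1 i‖) := by
            intro h1
            exact hJ (by simpa [J] using h1)
          have h3 := min_le_left (1/2) (1 - ‖y.1 i0‖)
          linarith
      · refine ⟨1/2, by norm_num, ?_⟩
        intro i hi
        by_cases hJ : i ∈ J
        · exfalso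
          apply hne
          refine ⟨i, Finset.mem_filter.2 ⟨hJ, ?_⟩⟩
          intro h1
          exact hi (Finset.mem_filter.2 ⟨hJ, h1⟩)
        · have : ¬ (1/2 ≤ ‖y.1 i‖) := by
            intro h1
            exact hJ (by simpa [J] using h1)
          linarith
    obtain ⟨δ, hδ, hgap⟩ := hgap
    set M : ℝ := ‖T (L z)‖ with hM
    have hM0 : 0 ≤ M := norm_nonneg _
    set t : ℝ := δ / (M + 1) with ht
    have ht0 : 0 < t := by positivity
    have key : ∀ s : ℝ, |s| ≤ t → c + s • z ∈ U := by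
      intro s hs
      have hlin : ∀ i, (T (L (c + s • z))).1 i = y.1 i + (s : 𝕜) * (T (L z)).1 i := by
        intro i
        have h1 : L (c + s • z) = L c + (s : 𝕜) • L z := by
          have hs' : s • z = (s : 𝕜) • z := by
            rw [RCLike.real_smul_eq_coe_smul (K := 𝕜)]
          rw [hs', map_add, map_smul]
        have h2 : T (L (c + s • z)) = y + (s : 𝕜) • T (L z) := by
          rw [h1, map_add, map_smul]
        have h3 : co (𝕜 := 𝕜) i (T (L (c + s • z))) = co i y + (s : 𝕜) • co i (T (L z)) := by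
          rw [h2, map_add, map_smul]
        exact h3
      refine norm_le_of_coord _ 1 zero_le_one ?_
      intro i
      rw [hlin]
      by_cases hi : i ∈ I
      · rw [hzI i hi, mul_zero, add_zero]
        exact (coord_le_norm y i).trans hcU
      · refine (norm_add_le _ _).trans ?_
        rw [norm_mul]
        have h1 : ‖(s : 𝕜)‖ = |s| := by simp
        rw [h1]
        have h2 : ‖(T (L z)).1 i‖ ≤ M := coord_le_norm _ i
        have h3 : |s| * ‖(T (L z)).1 i‖ ≤ t * M :=
          mul_le_mul hs h2 (norm_nonneg _) ht0.le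
        have h4 : t * M ≤ δ := by
          rw [ht, div_mul_eq_mul_div, div_le_iff₀ (by positivity)]
          nlinarith
        have h5 := hgap i hi
        linarith
    have h1 : c + t • z ∈ U := key t (by rw [abs_of_pos ht0])
    have h2 : c + (-t) • z ∈ U := key (-t) (by rw [abs_neg, abs_of_pos ht0])
    have hseg : c ∈ openSegment ℝ (c + t • z) (c + (-t) • z) := by
      refine ⟨1/2, 1/2, by norm_num, by norm_num, by norm_num, ?_⟩
      module
    have := (mem_extremePoints.1 hc).2 _ h1 _ h2 hseg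
    have h3 : c + t • z = c := this.1
    have h4 : t • z = 0 := by simpa using h3
    rcases smul_eq_zero.1 h4 with h5 | h5
    · exact ht0.ne' h5
    · exact hz0 h5
  -- contradiction with few
  have hcard : I.card ≤ S := by
    refine hS ((ε : 𝕜) • L c) ?_ I ?_
    · rw [norm_smul]
      have : ‖(ε : 𝕜)‖ = ε := by simp [abs_of_pos hε]
      rw [this]
      exact (hTL c).trans hcU
    · intro i hi
      have h0 : T ((ε : 𝕜) • L c) = (ε : 𝕜) • y := by rw [map_smul]
      have h1 : (T ((ε : 𝕜) • L c)).1 i = (ε : 𝕜) * y.1 i := by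
        rw [h0]; rfl
      show ε ≤ ‖(T ((ε : 𝕜) • L c)).1 i‖
      rw [h1, norm_mul, (Finset.mem_filter.1 hi).2, mul_one]
      simp [abs_of_pos hε]
  omega

/-- construction of an operator into `c_0` from functionals -/
theorem exists_op {X : Type} [NormedAddCommGroup X] [NormedSpace 𝕜 X] (φ : ℕ → (X →L[𝕜] 𝕜))
    (hφ : ∀ i x, ‖φ i x‖ ≤ ‖x‖) (h : Few (𝕜 := 𝕜) (fun i (x : X) => φ i x)) :
    ∃ T : X →L[𝕜] C0 𝕜, ∀ x i, (T x).1 i = φ i x := by
  classical
  have hmem : ∀ x, Memℓp (fun i => φ i x) ∞ := by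
    intro x
    refine memℓp_infty ⟨‖x‖, ?_⟩
    rintro _ ⟨i, rfl⟩
    exact hφ i x
  have htend : ∀ x, Tendsto (fun i => ‖φ i x‖) atTop (𝓝 0) := by
    intro x
    rw [← Nat.cofinite_eq_atTop]
    rw [Metric.tendsto_nhds]
    intro ε hε
    rw [Filter.eventually_cofinite]
    by_contra hinf
    have hinf' : {i | ¬ dist ‖φ i x‖ 0 < ε}.Infinite := hinf
    by_cases hx : x = 0
    · apply hinf
      convert Set.finite_empty
      ext i
      simp [hx, hε]
    have hx' : 0 < ‖x‖ := norm_pos_iff.2 hx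
    obtain ⟨S, hS⟩ := h (ε / ‖x‖) (by positivity)
    obtain ⟨F, hFs, hFc⟩ := hinf'.exists_subset_card_eq (S + 1)
    have := hS (((‖x‖⁻¹ : ℝ) : 𝕜) • x) (by
      rw [norm_smul]
      simp [hx'.ne']) F (by
      intro i hi
      have h1 := hFs hi
      simp only [dist_zero_right, norm_norm, not_lt, Set.mem_ofPred_eq] at h1
      show ε / ‖x‖ ≤ ‖φ i (((‖x‖⁻¹ : ℝ) : 𝕜) • x)‖
      rw [map_smul, norm_smul]
      simp only [RCLike.norm_ofReal, abs_inv, abs_norm]
      rw [div_eq_inv_mul]
      exact mul_le_mul_of_nonneg_left h1 (by positivity))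
    omega
  let f : X →ₗ[𝕜] C0 𝕜 :=
    { toFun := fun x => ⟨⟨fun i => φ i x, hmem x⟩, htend x⟩
      map_add' := by
        intro a b
        apply Subtype.ext
        apply lp.ext
        funext i
        exact map_add (φ i) a b
      map_smul' := by
        intro a b
        apply Subtype.ext
        apply lp.ext
        funext i
        exact map_smul (φ i) a b }
  refine ⟨f.mkContinuous 1 ?_, ?_⟩
  · intro x
    rw [one_mul]
    exact norm_le_of_coord _ _ (norm_nonneg _) (fun i => hφ i x)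
  · intro x i
    rfl

end Pool.Agent.R302.FS
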