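import Pool.Agent.R302.FS.Poly

set_option autoImplicit false

noncomputable section

open scoped ENNReal Topology
open Filter

namespace Pool.Agent.R302.FS

variable {𝕜 : Type} [RCLike 𝕜]

/-- entries -/
def Pm (Q : ℝ) (l : ℕ) : ℝ := (l : ℝ) ^ (-(1 / Q))

theorem Pm_nonneg (Q : ℝ) (l : ℕ) : 0 ≤ Pm Q l := by unfold Pm; positivity

theorem Pm_pow (Q : ℝ) (hQ : 0 < Q) (l : ℕ) : Pm Q l ^ Q = (l : ℝ)⁻¹ := by
  unfold Pm
  rw [← Real.rpow_mul (by positivity)]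
  rw [show -(1 / Q) * Q = -1 by field_simp]
  rw [Real.rpow_neg_one]

/-- the matrix -/
def Pt {d : ℕ} (Q : ℝ) (r : PR d) (u : PU) : ℝ := if u ∈ PC r then Pm Q r.1 else 0

theorem Pt_supp {d : ℕ} (Q : ℝ) (r : PR d) (u : PU) (h : u ∉ PC r) : Pt Q r u = 0 := by
  unfold Pt; rw [if_neg h]

theorem Pt_mem {d : ℕ} (Q : ℝ) (r : PR d) (u : PU) (h : u ∈ PC r) : Pt Q r u = Pm Q r.1 := by
  unfold Pt; rw [if_pos h]

theorem Pt_row_norm {d : ℕ} (Q : ℝ) (hQ : 0 < Q) (r : PR d) :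
    ∑ u ∈ PC r, |Pt Q r u| ^ Q ≤ 1 := by
  have h1 : ∀ u ∈ PC r, |Pt Q r u| ^ Q = ((r.1 : ℕ) : ℝ)⁻¹ := by
    intro u hu
    rw [Pt_mem Q r u hu, abs_of_nonneg (Pm_nonneg _ _), Pm_pow Q hQ]
  rw [Finset.sum_congr rfl h1, Finset.sum_const, nsmul_eq_mul]
  have h2 : ((PC r).card : ℝ) ≤ (r.1 : ℕ) := by exact_mod_cast PC_card_le r
  calc ((PC r).card : ℝ) * ((r.1 : ℕ) : ℝ)⁻¹ ≤ ((r.1 : ℕ) : ℝ) * ((r.1 : ℕ) : ℝ)⁻¹ :=
        mul_le_mul_of_nonneg_right h2 (by positivity)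
    _ ≤ 1 := mul_inv_le_one

theorem Pt_sum_le {d : ℕ} (Q : ℝ) (F : Finset (PR d)) (θ : PR d → 𝕜) (hθ : ∀ r, ‖θ r‖ ≤ 1)
    (u : PU) : ‖∑ r ∈ F, θ r * (Pt Q r u : 𝕜)‖ ≤ Pm Q u.1 * mult F u := by
  refine (norm_sum_le _ _).trans ?_
  have h1 : ∀ r ∈ F, ‖θ r * (Pt Q r u : 𝕜)‖ ≤ if u ∈ PC r then Pm Q u.1 else 0 := by
    intro r _
    rw [norm_mul, RCLike.norm_ofReal]
    split_ifs with h
    · rw [Pt_mem Q r u h, abs_of_nonneg (Pm_nonneg _ _), ← PC_fst r u h]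
      calc ‖θ r‖ * Pm Q u.1 ≤ 1 * Pm Q u.1 :=
            mul_le_mul_of_nonneg_right (hθ r) (Pm_nonneg _ _)
        _ = _ := one_mul _
    · rw [Pt_supp Q r u h]; simp
  refine (Finset.sum_le_sum h1).trans (le_of_eq ?_)
  rw [← Finset.sum_filter, Finset.sum_const, nsmul_eq_mul, mul_comm]
  rfl

theorem Pt_pow_le {d : ℕ} (Q : ℝ) (hQ : 0 < Q) (F : Finset (PR d)) (θ : PR d → 𝕜)
    (hθ : ∀ r, ‖θ r‖ ≤ 1) (u : PU) :
    ‖∑ r ∈ F, θ r * (Pt Q r u : 𝕜)‖ ^ Q ≤ pw u * (mult F u : ℝ) ^ Q := by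
  have h1 := Real.rpow_le_rpow (norm_nonneg _) (Pt_sum_le Q F θ hθ u) hQ.le
  rw [Real.mul_rpow (Pm_nonneg _ _) (by positivity), Pm_pow Q hQ] at h1
  exact h1

theorem nat_pow_low (c : ℕ) (Q : ℝ) (hQ : 0 < Q) (hQ2 : Q ≤ 2) :
    (c : ℝ) ^ Q ≤ c + ((c : ℝ) * c - c) := by
  have e : (c : ℝ) + ((c : ℝ) * c - c) = (c : ℝ) ^ (2 : ℝ) := by
    rw [Real.rpow_two]; ring
  rw [e]
  rcases Nat.eq_zero_or_pos c with h | h
  · subst h
    rw [Nat.cast_zero, Real.zero_rpow hQ.ne', Real.zero_rpow (by norm_num)]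
  · have h1 : (1 : ℝ) ≤ c := by exact_mod_cast h
    exact Real.rpow_le_rpow_of_exponent_le h1 hQ2

theorem nat_pow_high (c s : ℕ) (hcs : c ≤ s) (P : ℝ) (hP : 2 < P) :
    (c : ℝ) ^ P ≤ c + 2 * (s : ℝ) ^ (P - 2) * ((c : ℝ) * c - c) := by
  rcases Nat.lt_or_ge c 2 with h | h
  · interval_cases c
    · simp [Real.zero_rpow (show P ≠ 0 by linarith)]
    · simp
  · have h1 : (2 : ℝ) ≤ c := by exact_mod_cast h
    have h0 : (0 : ℝ) < c := by linarith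
    have hs : (c : ℝ) ≤ s := by exact_mod_cast hcs
    have e1 : (c : ℝ) ^ P = (c : ℝ) ^ (P - 2) * ((c : ℝ) * c) := by
      rw [← pow_two, ← Real.rpow_natCast (c : ℝ) 2, ← Real.rpow_add h0]
      congr 1; push_cast; ring
    rw [e1]
    have h2 : (c : ℝ) ^ (P - 2) ≤ (s : ℝ) ^ (P - 2) :=
      Real.rpow_le_rpow h0.le hs (by linarith)
    have h3 : (0 : ℝ) ≤ (s : ℝ) ^ (P - 2) := by positivity
    have h4 : (c : ℝ) * c ≤ 2 * ((c : ℝ) * c - c) := by nlinarith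
    calc (c : ℝ) ^ (P - 2) * ((c : ℝ) * c) ≤ (s : ℝ) ^ (P - 2) * ((c : ℝ) * c) :=
          mul_le_mul_of_nonneg_right h2 (by positivity)
      _ ≤ (s : ℝ) ^ (P - 2) * (2 * ((c : ℝ) * c - c)) := mul_le_mul_of_nonneg_left h4 h3
      _ = 2 * (s : ℝ) ^ (P - 2) * ((c : ℝ) * c - c) := by ring
      _ ≤ _ := by linarith

theorem poly_sum_low {d : ℕ} (Q : ℝ) (hQ : 0 < Q) (hQ2 : Q ≤ 2) (F : Finset (PR d))
    (θ : PR d → 𝕜) (hθ : ∀ r, ‖θ r‖ ≤ 1) (V : Finset PU) (l0 : ℝ) (hl0 : 0 < l0)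
    (hF : ∀ r ∈ F, l0 ≤ r.1) :
    ∑ u ∈ V, ‖∑ r ∈ F, θ r * (Pt Q r u : 𝕜)‖ ^ Q ≤ F.card + (F.card : ℝ) ^ 2 * (d / l0) := by
  have h1 : ∀ u ∈ V, ‖∑ r ∈ F, θ r * (Pt Q r u : 𝕜)‖ ^ Q
      ≤ pw u * mult F u + pw u * ((mult F u : ℝ) * mult F u - mult F u) := by
    intro u _
    refine (Pt_pow_le Q hQ F θ hθ u).trans ?_
    rw [← mul_add]
    exact mul_le_mul_of_nonneg_left (nat_pow_low _ Q hQ hQ2) (pw_nonneg u)
  refine (Finset.sum_le_sum h1).trans ?_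
  rw [Finset.sum_add_distrib]
  exact add_le_add (sum_mult F V) (sum_mult_off F V l0 hl0 hF)

theorem poly_sum_high {d : ℕ} (P : ℝ) (hP : 2 < P) (F : Finset (PR d))
    (θ : PR d → 𝕜) (hθ : ∀ r, ‖θ r‖ ≤ 1) (V : Finset PU) (l0 : ℝ) (hl0 : 0 < l0)
    (hF : ∀ r ∈ F, l0 ≤ r.1) :
    ∑ u ∈ V, ‖∑ r ∈ F, θ r * (Pt P r u : 𝕜)‖ ^ P
      ≤ F.card + 2 * (F.card : ℝ) ^ (P - 2) * ((F.card : ℝ) ^ 2 * (d / l0)) := by
  have h1 : ∀ u ∈ V, ‖∑ r ∈ F, θ r * (Pt P r u : 𝕜)‖ ^ P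
      ≤ pw u * mult F u + (2 * (F.card : ℝ) ^ (P - 2)) *
        (pw u * ((mult F u : ℝ) * mult F u - mult F u)) := by
    intro u _
    refine (Pt_pow_le P (by linarith) F θ hθ u).trans ?_
    have h2 := mul_le_mul_of_nonneg_left (nat_pow_high (mult F u) F.card (mult_le F u) P hP)
      (pw_nonneg u)
    refine h2.trans (le_of_eq ?_)
    ring
  refine (Finset.sum_le_sum h1).trans ?_
  rw [Finset.sum_add_distrib, ← Finset.mul_sum]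
  refine add_le_add (sum_mult F V) ?_
  exact mul_le_mul_of_nonneg_left (sum_mult_off F V l0 hl0 hF) (by positivity)

/-- a large integer with `A (2 s)^a < B s` -/
theorem exists_large (A B a : ℝ) (hA : 0 ≤ A) (hB : 0 < B) (ha : a < 1) :
    ∃ s : ℕ, 1 ≤ s ∧ A * (2 * (s : ℝ)) ^ a < B * s := by
  have h1 : Tendsto (fun s : ℕ => (2 * (s : ℝ)) ^ (1 - a)) atTop atTop := by
    have h2 : Tendsto (fun x : ℝ => x ^ (1 - a)) atTop atTop := tendsto_rpow_atTop (by linarith)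
    have h3 : Tendsto (fun s : ℕ => 2 * (s : ℝ)) atTop atTop :=
      tendsto_natCast_atTop_atTop.const_mul_atTop (by norm_num)
    exact h2.comp h3
  have h4 := (h1.eventually_gt_atTop (2 * A / B)).and (eventually_ge_atTop 1)
  obtain ⟨s, hs, hs1⟩ := h4.exists
  refine ⟨s, hs1, ?_⟩
  have hs0 : (0 : ℝ) < s := by exact_mod_cast hs1
  have h5 : (2 * (s : ℝ)) ^ (1 - a) * (2 * (s : ℝ)) ^ a = 2 * s := by
    rw [← Real.rpow_add (by positivity)]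
    rw [show 1 - a + a = 1 by ring, Real.rpow_one]
  have h6 : 0 < (2 * (s : ℝ)) ^ a := by positivity
  rw [div_lt_iff₀ hB] at hs
  have h7 : 2 * A * (2 * (s : ℝ)) ^ a < (2 * (s : ℝ)) ^ (1 - a) * B * (2 * (s : ℝ)) ^ a :=
    mul_lt_mul_of_pos_right hs h6
  have h8 : (2 * (s : ℝ)) ^ (1 - a) * B * (2 * (s : ℝ)) ^ a = B * (2 * s) := by
    calc (2 * (s : ℝ)) ^ (1 - a) * B * (2 * (s : ℝ)) ^ a
        = B * ((2 * (s : ℝ)) ^ (1 - a) * (2 * (s : ℝ)) ^ a) := by ring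
      _ = B * (2 * s) := by rw [h5]
  rw [h8] at h7
  linarith

variable {p : ℝ≥0∞} [Fact (1 ≤ p)]

/-- test vectors -/
def px {d : ℕ} (r : PR d) : Ell 𝕜 p :=
  ∑ u ∈ PC r, ((Pm p.toReal r.1 : ℝ) : 𝕜) • ev Encodable.encode u

theorem encInj : Function.Injective (Encodable.encode : PU → ℕ) := Encodable.encode_injective

theorem px_norm (hP : 0 < p.toReal) {d : ℕ} (r : PR d) : ‖(px r : Ell 𝕜 p)‖ ≤ 1 := by
  have h1 : ‖(px r : Ell 𝕜 p)‖ ^ p.toReal ≤ 1 := by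
    unfold px
    rw [comb_norm hP _ encInj]
    have h2 : ∀ u ∈ PC r, ‖((Pm p.toReal r.1 : ℝ) : 𝕜)‖ ^ p.toReal = ((r.1 : ℕ) : ℝ)⁻¹ := by
      intro u _
      rw [RCLike.norm_ofReal, abs_of_nonneg (Pm_nonneg _ _), Pm_pow _ hP]
    rw [Finset.sum_congr rfl h2, Finset.sum_const, nsmul_eq_mul]
    have h3 : ((PC r).card : ℝ) ≤ (r.1 : ℕ) := by exact_mod_cast PC_card_le r
    calc ((PC r).card : ℝ) * ((r.1 : ℕ) : ℝ)⁻¹ ≤ ((r.1 : ℕ) : ℝ) * ((r.1 : ℕ) : ℝ)⁻¹ :=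
          mul_le_mul_of_nonneg_right h3 (by positivity)
      _ ≤ 1 := mul_inv_le_one
  by_contra hlt
  push Not at hlt
  have := Real.one_lt_rpow hlt hP
  linarith

/-- signed sums of test vectors -/
theorem px_comb {d : ℕ} (G : Finset (PR d)) (ε : PR d → ℝ) :
    ∑ r ∈ G, (ε r : 𝕜) • (px r : Ell 𝕜 p)
      = ∑ u ∈ G.biUnion PC, (∑ r ∈ G, (ε r : 𝕜) * (Pt p.toReal r u : 𝕜)) •
          (ev Encodable.encode u : Ell 𝕜 p) := by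
  classical
  have h1 : ∀ r ∈ G, (ε r : 𝕜) • (px r : Ell 𝕜 p)
      = ∑ u ∈ G.biUnion PC, ((ε r : 𝕜) * (Pt p.toReal r u : 𝕜)) •
          (ev Encodable.encode u : Ell 𝕜 p) := by
    intro r hr
    unfold px
    rw [Finset.smul_sum]
    rw [← Finset.sum_subset (Finset.subset_biUnion_of_mem PC hr)]
    · refine Finset.sum_congr rfl (fun u hu => ?_)
      rw [Pt_mem _ r u hu, smul_smul]
    · intro u _ hu
      rw [Pt_supp _ r u hu]; simp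
  rw [Finset.sum_congr rfl h1, Finset.sum_comm]
  refine Finset.sum_congr rfl (fun u _ => ?_)
  rw [← Finset.sum_smul]

theorem count_bound (hP : 2 < p.toReal) (d : ℕ) (β c : ℝ) (hβ : 0 ≤ β) (hcpos : 0 < c) :
    ∃ s1 l1 : ℕ, ∀ (B : Ell 𝕜 p →L[𝕜] HilbSum 𝕜 p), ‖B‖ ≤ β → ∀ (n : ℕ) (G : Finset (PR d)),
      (∀ r ∈ G, l1 ≤ r.1) → (∀ r ∈ G, c ≤ ‖hc n (B (px r))‖) → G.card ≤ s1 := by
  classical
  set P : ℝ := p.toReal with hPdef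
  have hP0 : 0 < P := by linarith
  have ha : 2 / P < 1 := by rw [div_lt_one hP0]; exact hP
  obtain ⟨s1, hs1, hlarge⟩ := exists_large (β ^ 2) (c ^ 2) (2 / P) (by positivity)
    (by positivity) ha
  have hs0 : (0 : ℝ) < s1 := by exact_mod_cast hs1
  obtain ⟨l1, hl1⟩ := exists_nat_gt (2 * (s1 : ℝ) ^ (P - 2) * ((s1 : ℝ) ^ 2 * d))
  have hl0 : (0 : ℝ) < l1 := lt_of_le_of_lt (by positivity) hl1
  refine ⟨s1, l1, ?_⟩
  intro B hB n G hG1 hG2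
  by_contra hlt
  push Not at hlt
  obtain ⟨G', hG'sub, hG'card⟩ := Finset.exists_subset_card_eq hlt.le
  obtain ⟨ε, hε, hsgn⟩ := exists_signs (𝕜 := 𝕜) (H := fun _ : Unit => EuclideanSpace 𝕜 (Fin n))
    ({()} : Finset Unit) G' (fun _ r => hc n (B (px r)))
  rw [Finset.sum_singleton, Finset.sum_singleton] at hsgn
  have hlow : (s1 : ℝ) * c ^ 2 ≤ ∑ r ∈ G', ‖hc n (B (px r))‖ ^ 2 := by
    have h1 : ∀ r ∈ G', c ^ 2 ≤ ‖hc n (B (px r))‖ ^ 2 :=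
      fun r hr => pow_le_pow_left₀ hcpos.le (hG2 r (hG'sub hr)) 2
    have h2 := Finset.sum_le_sum h1
    rw [Finset.sum_const, nsmul_eq_mul, hG'card] at h2
    exact h2
  set y : Ell 𝕜 p := ∑ r ∈ G', (ε r : 𝕜) • (px r : Ell 𝕜 p) with hy
  have hmap : ∑ r ∈ G', (ε r : 𝕜) • hc n (B (px r)) = hc n (B y) := by
    rw [hy, map_sum, map_sum]
    refine Finset.sum_congr rfl (fun r _ => ?_)
    rw [map_smul, map_smul]
  rw [hmap] at hsgn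
  have hynorm : ‖y‖ ^ P ≤ 2 * s1 := by
    rw [hy, px_comb, hPdef, comb_norm hP0 _ encInj]
    refine (poly_sum_high (𝕜 := 𝕜) p.toReal hP G' (fun r => (ε r : 𝕜))
      (fun r => by rw [RCLike.norm_ofReal, hε r]) (G'.biUnion PC) l1 hl0
      (fun r hr => by exact_mod_cast hG1 r (hG'sub hr))).trans ?_
    rw [hG'card]
    have h1 : 2 * (s1 : ℝ) ^ (p.toReal - 2) * ((s1 : ℝ) ^ 2 * (d / l1)) ≤ s1 := by
      have h2 : 2 * (s1 : ℝ) ^ (p.toReal - 2) * ((s1 : ℝ) ^ 2 * (d / l1))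
          = (2 * (s1 : ℝ) ^ (P - 2) * ((s1 : ℝ) ^ 2 * d)) / l1 := by
        rw [hPdef]; ring
      rw [h2, div_le_iff₀ hl0]
      have h3 : (1 : ℝ) ≤ s1 := by exact_mod_cast hs1
      nlinarith
    linarith
  have hyn2 : ‖y‖ ^ 2 ≤ (2 * (s1 : ℝ)) ^ (2 / P) := by
    have h1 := Real.rpow_le_rpow (by positivity) hynorm (show 0 ≤ 2 / P by positivity)
    rw [← Real.rpow_mul (norm_nonneg _)] at h1
    rw [show P * (2 / P) = ((2 : ℕ) : ℝ) by field_simp; norm_num] at h1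
    rw [Real.rpow_natCast] at h1
    exact h1
  have hup : ‖hc n (B y)‖ ^ 2 ≤ β ^ 2 * (2 * (s1 : ℝ)) ^ (2 / P) := by
    have h1 : ‖hc n (B y)‖ ≤ β * ‖y‖ := by
      refine (hc_norm_le n _).trans ((B.le_opNorm y).trans ?_)
      exact mul_le_mul_of_nonneg_right hB (norm_nonneg _)
    calc ‖hc n (B y)‖ ^ 2 ≤ (β * ‖y‖) ^ 2 := pow_le_pow_left₀ (norm_nonneg _) h1 2
      _ = β ^ 2 * ‖y‖ ^ 2 := by ring
      _ ≤ _ := mul_le_mul_of_nonneg_left hyn2 (by positivity)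
  have := hlow.trans (hsgn.trans hup)
  linarith

end Pool.Agent.R302.FS
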