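import Mathlib

set_option autoImplicit false

noncomputable section

namespace Pool.Agent.R302.FS

/-- the final computation with real exponents, isolated from the operators -/
theorem alg_final {N c l P β S2 SP : ℝ} (hN : 0 < N) (hc : 0 < c) (hl : 0 < l) (hP : 2 < P)
    (hS2 : 0 ≤ S2) (hA : N * c ^ 2 ≤ l ^ (1 - 2 / P) * S2)
    (hpm : S2 ^ (P / 2) ≤ N ^ (P / 2 - 1) * SP) (hS : SP ≤ β * l ^ 2) :
    N * c ^ P ≤ β * l ^ (1 + P / 2) := by
  have hP0 : 0 < P := by linarith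
  have hl1 : 0 ≤ l ^ (1 - 2 / P) := Real.rpow_nonneg hl.le _
  have h1 : (N * c ^ 2) ^ (P / 2) ≤ (l ^ (1 - 2 / P)) ^ (P / 2) *
      (N ^ (P / 2 - 1) * (β * l ^ 2)) := by
    calc (N * c ^ 2) ^ (P / 2)
        ≤ (l ^ (1 - 2 / P) * S2) ^ (P / 2) :=
          Real.rpow_le_rpow (mul_nonneg hN.le (sq_nonneg c)) hA (by linarith)
      _ = (l ^ (1 - 2 / P)) ^ (P / 2) * S2 ^ (P / 2) := Real.mul_rpow hl1 hS2
      _ ≤ _ := by
          refine mul_le_mul_of_nonneg_left ?_ (Real.rpow_nonneg hl1 _)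
          exact hpm.trans (mul_le_mul_of_nonneg_left hS (Real.rpow_nonneg hN.le _))
  have h2 : (N * c ^ 2) ^ (P / 2) = N ^ (P / 2 - 1) * (N * c ^ P) := by
    rw [Real.mul_rpow hN.le (sq_nonneg c)]
    have e1 : N ^ (P / 2) = N ^ (P / 2 - 1) * N := by
      nth_rewrite 3 [← Real.rpow_one N]
      rw [← Real.rpow_add hN]
      congr 1; ring
    have e2 : (c ^ 2) ^ (P / 2) = c ^ P := by
      rw [← Real.rpow_natCast c 2, ← Real.rpow_mul hc.le]
      congr 1; push_cast; ring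
    rw [e1, e2]; ring
  have h3 : (l ^ (1 - 2 / P)) ^ (P / 2) * l ^ 2 = l ^ (1 + P / 2) := by
    rw [← Real.rpow_mul hl.le, ← Real.rpow_natCast l 2, ← Real.rpow_add hl]
    congr 1
    field_simp
    push_cast
    ring
  rw [h2] at h1
  have h4 : (l ^ (1 - 2 / P)) ^ (P / 2) * (N ^ (P / 2 - 1) * (β * l ^ 2))
      = N ^ (P / 2 - 1) * (β * l ^ (1 + P / 2)) := by
    rw [← h3]; ring
  rw [h4] at h1
  exact le_of_mul_le_mul_left h1 (Real.rpow_pos_of_pos hN _)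

end Pool.Agent.R302.FS
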