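import Pool.Agent.R302.FS.High
import Pool.Agent.R302.FS.HighA

set_option autoImplicit false

noncomputable section

open scoped ENNReal Topology
open Filter

namespace Pool.Agent.R302.FS

variable {𝕜 : Type} [RCLike 𝕜] {p : ℝ≥0∞} [Fact (1 ≤ p)]

/-- the Hilbertian blocks are large on average once they are large at one test vector -/
theorem block_lower {d : ℕ} (r : PR d) (hr : r.1.Prime)
    (B : Ell 𝕜 p →L[𝕜] HilbSum 𝕜 p) (n : ℕ) (c : ℝ) (hcpos : 0 < c)
    (h : c ≤ ‖hc n (B (px r))‖) :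
    c ^ 2 ≤ (r.1 : ℝ) ^ (1 - 2 / p.toReal) *
      ∑ u ∈ ({r.1} : Finset ℕ) ×ˢ (Finset.range r.1 ×ˢ Finset.range r.1),
        ‖hc n (B (ev Encodable.encode (u : PU)))‖ ^ 2 := by
  classical
  set P : ℝ := p.toReal with hPdef
  have hl0 : (0 : ℝ) < r.1 := by exact_mod_cast hr.pos
  have hsub : PC r ⊆ ({r.1} : Finset ℕ) ×ˢ (Finset.range r.1 ×ˢ Finset.range r.1) := by
    intro u hu
    have hv := PC_valid r u hu
    unfold PC at hu
    rw [if_pos hv] at hu
    obtain ⟨x, hx, rfl⟩ := Finset.mem_image.1 hu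
    refine Finset.mem_product.2 ⟨by simp, Finset.mem_product.2 ⟨hx, ?_⟩⟩
    simp only [Finset.mem_range]
    exact Nat.mod_lt _ hr.pos
  have h1 : ‖hc n (B (px r))‖ ≤ Pm P r.1 * ∑ u ∈ PC r, ‖hc n (B (ev Encodable.encode u))‖ := by
    unfold px
    rw [hc_comb]
    refine (norm_sum_le _ _).trans (le_of_eq ?_)
    rw [Finset.mul_sum]
    refine Finset.sum_congr rfl (fun u _ => ?_)
    rw [norm_smul, RCLike.norm_ofReal, abs_of_nonneg (Pm_nonneg _ _)]
  have h2 : (∑ u ∈ PC r, ‖hc n (B (ev Encodable.encode u))‖) ^ 2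
      ≤ (r.1 : ℝ) * ∑ u ∈ PC r, ‖hc n (B (ev Encodable.encode u))‖ ^ 2 := by
    refine (sq_sum_le_card_mul_sum_sq (s := PC r)
      (f := fun u => ‖hc n (B (ev Encodable.encode u))‖)).trans ?_
    refine mul_le_mul_of_nonneg_right ?_ (Finset.sum_nonneg (fun _ _ => by positivity))
    exact_mod_cast PC_card_le r
  have h3 : ∑ u ∈ PC r, ‖hc n (B (ev Encodable.encode u))‖ ^ 2
      ≤ ∑ u ∈ ({r.1} : Finset ℕ) ×ˢ (Finset.range r.1 ×ˢ Finset.range r.1),
        ‖hc n (B (ev Encodable.encode (u : PU)))‖ ^ 2 :=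
    Finset.sum_le_sum_of_subset_of_nonneg hsub (fun _ _ _ => by positivity)
  have h4 : Pm P r.1 ^ 2 * (r.1 : ℝ) = (r.1 : ℝ) ^ (1 - 2 / P) := by
    unfold Pm
    rw [← Real.rpow_natCast ((r.1 : ℝ) ^ (-(1 / P))) 2, ← Real.rpow_mul hl0.le]
    nth_rewrite 2 [← Real.rpow_one (r.1 : ℝ)]
    rw [← Real.rpow_add hl0]
    congr 1
    push_cast
    ring
  calc c ^ 2 ≤ (Pm P r.1 * ∑ u ∈ PC r, ‖hc n (B (ev Encodable.encode u))‖) ^ 2 :=
        pow_le_pow_left₀ hcpos.le (h.trans h1) 2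
    _ = Pm P r.1 ^ 2 * (∑ u ∈ PC r, ‖hc n (B (ev Encodable.encode u))‖) ^ 2 := by ring
    _ ≤ Pm P r.1 ^ 2 * ((r.1 : ℝ) * ∑ u ∈ ({r.1} : Finset ℕ) ×ˢ
          (Finset.range r.1 ×ˢ Finset.range r.1),
            ‖hc n (B (ev Encodable.encode (u : PU)))‖ ^ 2) := by
        refine mul_le_mul_of_nonneg_left ?_ (by positivity)
        exact h2.trans (mul_le_mul_of_nonneg_left h3 hl0.le)
    _ = _ := by rw [← mul_assoc, h4]

theorem high_case (hP : 2 < p.toReal) :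
    ∃ T : Ell 𝕜 p →L[𝕜] C0 𝕜, FinStrictlySingular T ∧
      ∀ (k : ℕ → ℕ) (Kn : ∀ n : ℕ, EuclideanSpace 𝕜 (Fin n) →ₗ[𝕜] (Fin (k n) → 𝕜))
        (K : HilbSum 𝕜 p →L[𝕜] SupSum 𝕜 k), IsKMap k Kn K →
        T ∉ closedIdeal K (Ell 𝕜 p) (C0 𝕜) := by
  classical
  set P : ℝ := p.toReal with hPdef
  have hP0 : 0 < P := by linarith
  obtain ⟨Q, hPQ⟩ : ∃ Q : ℝ, P.HolderConjugate Q :=
    ⟨_, Real.HolderConjugate.conjExponent (by linarith)⟩
  have hQ0 : 0 < Q := hPQ.symm.pos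
  have hinv := hPQ.inv_add_inv_eq_one
  have hQ2 : Q ≤ 2 := by
    have h2 : P⁻¹ < 1 / 2 := by
      rw [← one_div]
      exact one_div_lt_one_div_of_lt (by norm_num) hP
    have h3 : 1 / 2 < Q⁻¹ := by linarith
    rw [← one_div, one_div_lt_one_div (by norm_num) hQ0] at h3
    exact h3.le
  obtain ⟨d, hd⟩ := exists_nat_gt (1 + P / 2)
  let φ : PR d → (Ell 𝕜 p →L[𝕜] 𝕜) := fun r => rowF Encodable.encode (PC r) (Pt Q r)
  have hφ : ∀ r x, ‖φ r x‖ ≤ ‖x‖ := fun r x =>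
    rowF_norm hPQ Encodable.encode encInj (PC r) (Pt Q r) (Pt_row_norm Q hQ0 r) x
  obtain ⟨T, hT, hTF⟩ := exists_op_rows φ hφ (by
    intro ε hε
    obtain ⟨s0, hs0, hlarge⟩ := exists_large 1 ε (1 / Q) zero_le_one hε (by
      rw [one_div]
      have : 0 < P⁻¹ := by positivity
      linarith)
    let L : ℕ := d * s0 + 1
    refine ⟨s0 + (Finset.range L ×ˢ Fintype.piFinset (fun _ : Fin d => Finset.range L)).card, ?_⟩
    intro x hx F hF
    have hsplit : F.card = (F.filter (fun r => L ≤ r.1)).card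
        + (F.filter (fun r => ¬ L ≤ r.1)).card := by
      rw [Finset.card_filter_add_card_filter_not]
    have h2 : (F.filter (fun r => ¬ L ≤ r.1)).card ≤
        (Finset.range L ×ˢ Fintype.piFinset (fun _ : Fin d => Finset.range L)).card := by
      refine Finset.card_le_card ?_
      intro r hr
      obtain ⟨hrF, hrL⟩ := Finset.mem_filter.1 hr
      push Not at hrL
      have h3 := hF r hrF
      have hne : (PC r).Nonempty := by
        by_contra hemp
        rw [Finset.not_nonempty_iff_eq_empty] at hemp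
        have h4 : φ r x = 0 := by
          show rowF Encodable.encode (PC r) (Pt Q r) x = 0
          rw [rowF_apply, hemp, Finset.sum_empty]
        rw [h4, norm_zero] at h3
        linarith
      obtain ⟨u, hu⟩ := hne
      have hv := PC_valid r u hu
      refine Finset.mem_product.2 ⟨Finset.mem_range.2 hrL, ?_⟩
      rw [Fintype.mem_piFinset]
      intro i
      exact Finset.mem_range.2 ((hv.2 i).trans hrL)
    have h1 : (F.filter (fun r => L ≤ r.1)).card ≤ s0 := by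
      by_contra hlt
      push Not at hlt
      obtain ⟨G, hGsub, hGcard⟩ := Finset.exists_subset_card_eq hlt.le
      obtain ⟨θ, hθ, h⟩ := few_rows hPQ Encodable.encode encInj PC (Pt Q) (Pt_supp Q) G x hx ε
        (fun r hr => hF r (Finset.mem_filter.1 (hGsub hr)).1)
      have hL0 : (0 : ℝ) < L := Nat.cast_pos.2 (Nat.succ_pos _)
      have h3 := poly_sum_low (𝕜 := 𝕜) Q hQ0 hQ2 G θ hθ (G.biUnion PC) L hL0
        (fun r hr => by exact_mod_cast (Finset.mem_filter.1 (hGsub hr)).2)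
      rw [hGcard] at h h3
      have hs0' : (0 : ℝ) < s0 := by exact_mod_cast hs0
      have h4 : (s0 : ℝ) + (s0 : ℝ) ^ 2 * (d / L) ≤ 2 * s0 := by
        have h5 : (s0 : ℝ) ^ 2 * (d / L) ≤ s0 := by
          rw [← mul_div_assoc, div_le_iff₀ hL0]
          have h6 : (L : ℝ) = d * s0 + 1 := by simp [L]
          rw [h6]
          nlinarith
        linarith
      have h5 : ε * s0 ≤ (2 * (s0 : ℝ)) ^ (1 / Q) := by
        refine h.trans (Real.rpow_le_rpow ?_ (h3.trans h4) (by positivity))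
        exact Finset.sum_nonneg (fun _ _ => by positivity)
      rw [one_mul] at hlarge
      linarith
    omega)
  refine ⟨T, hTF, ?_⟩
  intro kk Kn K hK hmem
  obtain ⟨c, hc0, m, B, hB⟩ := exists_factor hK T hmem
  have hxT : ∀ (r : PR d), (r.1.Prime ∧ ∀ i, r.2 i < r.1) → 1 ≤ ‖T (px r : Ell 𝕜 p)‖ := by
    intro r hr
    have hl0 : (0 : ℝ) < r.1 := by exact_mod_cast hr.1.pos
    have h1 : (T (px r : Ell 𝕜 p)).1 (Encodable.encode r) = 1 := by
      rw [hT]
      show rowF Encodable.encode (PC r) (Pt Q r) (px r) = 1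
      unfold px
      rw [rowF_comb _ encInj]
      have h2 : ∀ u ∈ PC r, ((Pt Q r u : ℝ) : 𝕜) * ((Pm p.toReal r.1 : ℝ) : 𝕜)
          = ((((r.1 : ℕ) : ℝ)⁻¹ : ℝ) : 𝕜) := by
        intro u hu
        rw [← RCLike.ofReal_mul, Pt_mem Q r u hu]
        congr 1
        unfold Pm
        rw [← Real.rpow_add hl0]
        rw [show -(1 / Q) + -(1 / p.toReal) = -1 by
          rw [one_div, one_div]; linarith]
        rw [Real.rpow_neg_one]
      rw [Finset.sum_congr rfl h2, Finset.sum_const, nsmul_eq_mul, PC_card r hr]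
      rw [← RCLike.ofReal_natCast, ← RCLike.ofReal_mul, mul_inv_cancel₀ hl0.ne']
      simp
    have h2 := coord_le_norm (T (px r : Ell 𝕜 p)) (Encodable.encode r)
    rw [h1] at h2
    simpa using h2
  set β : ℝ := ∑ i, ‖B i‖ with hβ
  have hβ0 : 0 ≤ β := Finset.sum_nonneg (fun _ _ => norm_nonneg _)
  have hBβ : ∀ i, ‖B i‖ ≤ β := fun i =>
    Finset.single_le_sum (f := fun i => ‖B i‖) (fun _ _ => norm_nonneg _) (Finset.mem_univ i)
  obtain ⟨s1, l1, hcount⟩ := count_bound (𝕜 := 𝕜) (p := p) hP d β c hβ0 hc0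
  set β' : ℝ := ∑ i, ‖B i‖ ^ P with hβ'
  -- main inequality for every large prime
  have hmain : ∀ l : ℕ, l.Prime → l1 ≤ l →
      (l : ℝ) ^ d * c ^ P ≤ s1 * (β' * (l : ℝ) ^ (1 + P / 2)) := by
    intro l hl hl1
    have hl0 : (0 : ℝ) < l := by exact_mod_cast hl.pos
    let rows : Finset (Fin d → ℕ) := Fintype.piFinset (fun _ : Fin d => Finset.range l)
    have hrows : ∀ f ∈ rows, ∀ i, f i < l := by
      intro f hf i
      exact Finset.mem_range.1 (Fintype.mem_piFinset.1 hf i)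
    have hch : ∀ f : Fin d → ℕ, ∃ b : Fin m × ℕ ⊕ Unit, f ∈ rows →
        ∃ b', b = Sum.inl b' ∧ c ≤ ‖hc b'.2 (B b'.1 (px ((l, f) : PR d)))‖ := by
      intro f
      by_cases hf : f ∈ rows
      · obtain ⟨i, n, h⟩ := hB (px ((l, f) : PR d)) (px_norm hP0 _)
          (hxT (l, f) ⟨hl, hrows f hf⟩)
        exact ⟨Sum.inl (i, n), fun _ => ⟨(i, n), rfl, h⟩⟩
      · exact ⟨Sum.inr (), fun h => absurd h hf⟩
    choose bb hbb using hch
    have hm : 0 < m := by
      have hz : (fun _ : Fin d => 0) ∈ rows :=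
        Fintype.mem_piFinset.2 (fun _ => Finset.mem_range.2 hl.pos)
      obtain ⟨b', _, _⟩ := hbb _ hz
      exact lt_of_le_of_lt (Nat.zero_le _) b'.1.2
    let b0 : Fin m × ℕ := (⟨0, hm⟩, 0)
    let cc : (Fin d → ℕ) → Fin m × ℕ := fun f => Sum.elim id (fun _ => b0) (bb f)
    have hcc : ∀ f ∈ rows, c ≤ ‖hc (cc f).2 (B (cc f).1 (px ((l, f) : PR d)))‖ := by
      intro f hf
      obtain ⟨b', h1, h2⟩ := hbb f hf
      have : cc f = b' := by simp [cc, h1]
      rw [this]; exact h2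
    let 𝓑 : Finset (Fin m × ℕ) := rows.image cc
    have hcard1 : rows.card ≤ s1 * 𝓑.card := by
      refine Finset.card_le_mul_card_image rows s1 ?_
      intro b _
      have h1 := hcount (B b.1) (hBβ b.1) b.2
        ((rows.filter (fun f => cc f = b)).image (fun f => ((l, f) : PR d)))
        (by
          intro r hr
          obtain ⟨f, _, rfl⟩ := Finset.mem_image.1 hr
          exact hl1)
        (by
          intro r hr
          obtain ⟨f, hf, rfl⟩ := Finset.mem_image.1 hr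
          obtain ⟨hf1, hf2⟩ := Finset.mem_filter.1 hf
          have := hcc f hf1
          rw [hf2] at this
          exact this)
      rw [Finset.card_image_of_injective] at h1
      · exact h1
      · intro f g hfg
        exact (Prod.mk.injEq _ _ _ _ ▸ hfg).2
    have hrowscard : (rows.card : ℝ) = (l : ℝ) ^ d := by
      simp [rows]
    -- lower bound of the blocks
    let grid : Finset PU := ({l} : Finset ℕ) ×ˢ (Finset.range l ×ˢ Finset.range l)
    have hgridcard : (grid.card : ℝ) = (l : ℝ) ^ 2 := by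
      simp [grid, pow_two]
    have hblock : ∀ b ∈ 𝓑, c ^ 2 ≤ (l : ℝ) ^ (1 - 2 / P) *
        ∑ u ∈ grid, ‖hc b.2 (B b.1 (ev Encodable.encode (u : PU)))‖ ^ 2 := by
      intro b hb
      obtain ⟨f, hf, rfl⟩ := Finset.mem_image.1 hb
      exact block_lower ((l, f) : PR d) hl (B (cc f).1) (cc f).2 c hc0 (hcc f hf)
    obtain ⟨ε, hε, hsgn⟩ := exists_signs (𝕜 := 𝕜)
      (H := fun b : Fin m × ℕ => EuclideanSpace 𝕜 (Fin b.2)) 𝓑 grid
      (fun b u => hc b.2 (B b.1 (ev Encodable.encode (u : PU))))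
    set z : Ell 𝕜 p := ∑ u ∈ grid, (ε u : 𝕜) • (ev Encodable.encode u : Ell 𝕜 p) with hz
    have hzn : ‖z‖ ^ P = (l : ℝ) ^ 2 := by
      rw [hz, hPdef, comb_norm hP0 _ encInj]
      have h1 : ∀ u ∈ grid, ‖(ε u : 𝕜)‖ ^ p.toReal = 1 := by
        intro u _
        rw [RCLike.norm_ofReal, hε u, Real.one_rpow]
      rw [Finset.sum_congr rfl h1, Finset.sum_const, nsmul_eq_mul, mul_one, hgridcard]
    have hBz : ∀ b ∈ 𝓑, ‖∑ u ∈ grid, (ε u : 𝕜) • hc b.2 (B b.1 (ev Encodable.encode (u : PU)))‖ ^ 2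
        = ‖hc b.2 (B b.1 z)‖ ^ 2 := by
      intro b _
      rw [hz, hc_comb]
    rw [Finset.sum_congr rfl hBz] at hsgn
    set N : ℝ := (𝓑.card : ℝ) with hN
    have hN0 : 0 < N := by
      have : rows.Nonempty := ⟨fun _ => 0,
        Fintype.mem_piFinset.2 (fun _ => Finset.mem_range.2 hl.pos)⟩
      have h2 : 0 < 𝓑.card := Finset.card_pos.2 (this.image cc)
      rw [hN]
      exact Nat.cast_pos.2 h2
    have hA : N * c ^ 2 ≤ (l : ℝ) ^ (1 - 2 / P) * ∑ b ∈ 𝓑, ‖hc b.2 (B b.1 z)‖ ^ 2 := by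
      have h1 := Finset.sum_le_sum hblock
      rw [Finset.sum_const, nsmul_eq_mul, ← Finset.mul_sum] at h1
      exact h1.trans (mul_le_mul_of_nonneg_left hsgn (Real.rpow_nonneg hl0.le _))
    -- power mean
    have hpm : (∑ b ∈ 𝓑, ‖hc b.2 (B b.1 z)‖ ^ 2) ^ (P / 2)
        ≤ N ^ (P / 2 - 1) * ∑ b ∈ 𝓑, ‖hc b.2 (B b.1 z)‖ ^ P := by
      have h1 := Real.rpow_sum_le_const_mul_sum_rpow 𝓑 (fun b => ‖hc b.2 (B b.1 z)‖ ^ 2)
        (p := P / 2) (by linarith)
      have h2 : ∀ b ∈ 𝓑, |‖hc b.2 (B b.1 z)‖ ^ 2| ^ (P / 2) = ‖hc b.2 (B b.1 z)‖ ^ P := by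
        intro b _
        rw [abs_of_nonneg (sq_nonneg _), ← Real.rpow_natCast _ 2,
          ← Real.rpow_mul (norm_nonneg _)]
        congr 1
        push_cast
        ring
      have h3 : ∀ b ∈ 𝓑, |‖hc b.2 (B b.1 z)‖ ^ 2| = ‖hc b.2 (B b.1 z)‖ ^ 2 :=
        fun b _ => abs_of_nonneg (sq_nonneg _)
      rw [Finset.sum_congr rfl h2, Finset.sum_congr rfl h3] at h1
      exact h1
    have hsumP : ∑ b ∈ 𝓑, ‖hc b.2 (B b.1 z)‖ ^ P ≤ β' * (l : ℝ) ^ 2 := by
      have h1 : ∑ b ∈ 𝓑, ‖hc b.2 (B b.1 z)‖ ^ P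
          ≤ ∑ b ∈ (Finset.univ : Finset (Fin m)) ×ˢ (𝓑.image Prod.snd),
            ‖hc b.2 (B b.1 z)‖ ^ P := by
        refine Finset.sum_le_sum_of_subset_of_nonneg ?_
          (fun _ _ _ => Real.rpow_nonneg (norm_nonneg _) _)
        intro b hb
        exact Finset.mem_product.2 ⟨Finset.mem_univ _, Finset.mem_image_of_mem _ hb⟩
      refine h1.trans ?_
      rw [Finset.sum_product, hβ', Finset.sum_mul]
      refine Finset.sum_le_sum (fun i _ => ?_)
      refine (hc_sum_rpow hP0 (B i z) _).trans ?_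
      rw [← hzn, ← Real.mul_rpow (norm_nonneg _) (norm_nonneg _)]
      exact Real.rpow_le_rpow (norm_nonneg _) ((B i).le_opNorm z) hP0.le
    have hfin : N * c ^ P ≤ β' * (l : ℝ) ^ (1 + P / 2) :=
      alg_final hN0 hc0 hl0 hP (Finset.sum_nonneg (fun _ _ => sq_nonneg _)) hA hpm hsumP
    have hcardR : (l : ℝ) ^ d ≤ s1 * N := by
      rw [← hrowscard, hN]
      exact_mod_cast hcard1
    calc (l : ℝ) ^ d * c ^ P ≤ (s1 * N) * c ^ P :=
          mul_le_mul_of_nonneg_right hcardR (Real.rpow_nonneg hc0.le _)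
      _ = s1 * (N * c ^ P) := mul_assoc _ _ _
      _ ≤ _ := mul_le_mul_of_nonneg_left hfin (Nat.cast_nonneg _)
  -- conclusion
  have hlim : Tendsto (fun l : ℕ => (l : ℝ) ^ ((d : ℝ) - (1 + P / 2))) atTop atTop := by
    have h2 : Tendsto (fun x : ℝ => x ^ ((d : ℝ) - (1 + P / 2))) atTop atTop :=
      tendsto_rpow_atTop (by linarith)
    exact h2.comp tendsto_natCast_atTop_atTop
  have hev := hlim.eventually_gt_atTop (s1 * β' / c ^ P)
  obtain ⟨l2, hl2⟩ := eventually_atTop.1 hev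
  obtain ⟨l, hlge, hlprime⟩ := Nat.exists_infinite_primes (max l1 l2)
  have h1 := hmain l hlprime ((le_max_left _ _).trans hlge)
  have h2 := hl2 l ((le_max_right _ _).trans hlge)
  have hl0 : (0 : ℝ) < l := by exact_mod_cast hlprime.pos
  rw [div_lt_iff₀ (Real.rpow_pos_of_pos hc0 _)] at h2
  have h3 : (l : ℝ) ^ d = (l : ℝ) ^ ((d : ℝ) - (1 + P / 2)) * (l : ℝ) ^ (1 + P / 2) := by
    rw [← Real.rpow_add hl0, ← Real.rpow_natCast]
    congr 1; ring
  have h4 : 0 < (l : ℝ) ^ (1 + P / 2) := Real.rpow_pos_of_pos hl0 _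
  have h5 : (s1 * β') * (l : ℝ) ^ (1 + P / 2)
      < ((l : ℝ) ^ ((d : ℝ) - (1 + P / 2)) * c ^ P) * (l : ℝ) ^ (1 + P / 2) :=
    mul_lt_mul_of_pos_right h2 h4
  rw [h3] at h1
  linarith

end Pool.Agent.R302.FS
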