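import Pool.Agent.R302.FS.Test

set_option autoImplicit false

noncomputable section

open scoped ENNReal Topology
open Filter

namespace Pool.Agent.R302.FS

variable {𝕜 : Type} [RCLike 𝕜]

theorem exists_Kn (n : ℕ) : ∃ (k : ℕ) (L : EuclideanSpace 𝕜 (Fin n) →ₗ[𝕜] (Fin k → 𝕜)),
    (∀ x, ‖x‖ ≤ ‖L x‖) ∧ (∀ x, ‖L x‖ ≤ 2 * ‖x‖) := by
  classical
  have hcomp : IsCompact (Metric.closedBall (0 : EuclideanSpace 𝕜 (Fin n)) 1) :=
    isCompact_closedBall _ _
  obtain ⟨t, hts, htf, hcov⟩ := hcomp.finite_cover_balls (e := 1/2) (by norm_num)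
  let s : Finset (EuclideanSpace 𝕜 (Fin n)) := htf.toFinset
  let y : Fin s.card → EuclideanSpace 𝕜 (Fin n) := fun i => (s.equivFin.symm i : _)
  have hy : ∀ i, ‖y i‖ ≤ 1 := by
    intro i
    have h1 : y i ∈ s := (s.equivFin.symm i).2
    have h2 : y i ∈ t := by simpa [s] using h1
    simpa using hts h2
  let L : EuclideanSpace 𝕜 (Fin n) →ₗ[𝕜] (Fin s.card → 𝕜) :=
    LinearMap.pi (fun i => (2 : 𝕜) • (innerSL 𝕜 (y i) : EuclideanSpace 𝕜 (Fin n) →ₗ[𝕜] 𝕜))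
  have hL : ∀ x i, L x i = 2 * inner 𝕜 (y i) x := by
    intro x i
    simp [L]
  refine ⟨s.card, L, ?_, ?_⟩
  · intro x
    by_cases hx : x = 0
    · simp [hx]
    have hx' : 0 < ‖x‖ := norm_pos_iff.2 hx
    set u : EuclideanSpace 𝕜 (Fin n) := ((‖x‖⁻¹ : ℝ) : 𝕜) • x with hu
    have hun : ‖u‖ = 1 := by
      rw [hu, norm_smul]
      simp [hx'.ne']
    have hxu : x = ((‖x‖ : ℝ) : 𝕜) • u := by
      rw [hu, smul_smul, ← RCLike.ofReal_mul, mul_inv_cancel₀ hx'.ne']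
      simp
    have hum : u ∈ Metric.closedBall (0 : EuclideanSpace 𝕜 (Fin n)) 1 := by
      simp [hun]
    obtain ⟨z, hz, hzu⟩ := Set.mem_iUnion₂.1 (hcov hum)
    have hzs : z ∈ s := by simpa [s] using hz
    let i : Fin s.card := s.equivFin ⟨z, hzs⟩
    have hyi : y i = z := by simp [y, i]
    have h1 : ‖L x i‖ ≤ ‖L x‖ := norm_le_pi_norm _ i
    rw [hL, hyi] at h1
    have h2 : ‖u - z‖ < 1/2 := by
      rw [← dist_eq_norm]; exact Metric.mem_ball.1 hzu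
    have h3 : (1 : ℝ)/2 ≤ ‖(inner 𝕜 z u : 𝕜)‖ := by
      have e1 : (inner 𝕜 z u : 𝕜) = inner 𝕜 u u - inner 𝕜 (u - z) u := by
        rw [inner_sub_left]; ring
      have e2 : ‖(inner 𝕜 u u : 𝕜)‖ = 1 := by
        rw [inner_self_eq_norm_sq_to_K, hun]; simp
      have e3 : ‖(inner 𝕜 (u - z) u : 𝕜)‖ ≤ 1/2 := by
        refine (norm_inner_le_norm _ _).trans ?_
        rw [hun, mul_one]; exact h2.le
      have e4 : ‖(inner 𝕜 u u : 𝕜)‖ ≤ ‖(inner 𝕜 z u : 𝕜)‖ + ‖(inner 𝕜 (u - z) u : 𝕜)‖ := by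
        have : (inner 𝕜 u u : 𝕜) = inner 𝕜 z u + inner 𝕜 (u - z) u := by rw [e1]; ring
        rw [this]; exact norm_add_le _ _
      linarith
    have h4 : ‖(2 : 𝕜) * inner 𝕜 z x‖ = 2 * (‖x‖ * ‖(inner 𝕜 z u : 𝕜)‖) := by
      conv_lhs => rw [hxu]
      rw [inner_smul_right, norm_mul, norm_mul]
      simp
    rw [h4] at h1
    nlinarith
  · intro x
    refine (pi_norm_le_iff_of_nonneg (by positivity)).2 ?_
    intro i
    rw [hL, norm_mul]
    have h1 : ‖(inner 𝕜 (y i) x : 𝕜)‖ ≤ ‖x‖ := by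
      refine (norm_inner_le_norm _ _).trans ?_
      calc ‖y i‖ * ‖x‖ ≤ 1 * ‖x‖ := mul_le_mul_of_nonneg_right (hy i) (norm_nonneg _)
        _ = ‖x‖ := one_mul _
    simp only [RCLike.norm_ofNat]
    linarith

variable {p : ℝ≥0∞} [Fact (1 ≤ p)]

theorem exists_KMap (hP : 0 < p.toReal) : ∃ (k : ℕ → ℕ)
    (Kn : ∀ n : ℕ, EuclideanSpace 𝕜 (Fin n) →ₗ[𝕜] (Fin (k n) → 𝕜))
    (K : HilbSum 𝕜 p →L[𝕜] SupSum 𝕜 k), IsKMap k Kn K := by
  classical
  choose k Kn h1 h2 using fun n => exists_Kn (𝕜 := 𝕜) n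
  have hmem : ∀ x : HilbSum 𝕜 p, Memℓp (fun n => Kn n (x n)) ∞ := by
    intro x
    refine memℓp_infty ⟨2 * ‖x‖, ?_⟩
    rintro _ ⟨n, rfl⟩
    refine (h2 n _).trans ?_
    exact mul_le_mul_of_nonneg_left (lp.norm_apply_le_norm p_ne_zero' x n) (by norm_num)
  have htend : ∀ x : HilbSum 𝕜 p, Tendsto (fun n => ‖Kn n (x n)‖) atTop (𝓝 0) := by
    intro x
    have hs := (lp.memℓp x).summable hP
    have h3 : Tendsto (fun n => ‖x n‖ ^ p.toReal) atTop (𝓝 0) := hs.tendsto_atTop_zero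
    have h4 : Tendsto (fun n => (‖x n‖ ^ p.toReal) ^ (1 / p.toReal)) atTop (𝓝 0) := by
      have := h3.rpow_const (p := 1 / p.toReal) (Or.inr (by positivity))
      rwa [Real.zero_rpow (by positivity)] at this
    have h5 : Tendsto (fun n => 2 * ‖x n‖) atTop (𝓝 0) := by
      have h6 : (fun n => 2 * ‖x n‖) = fun n => 2 * (‖x n‖ ^ p.toReal) ^ (1 / p.toReal) := by
        funext n
        rw [← Real.rpow_mul (norm_nonneg _), mul_one_div_cancel hP.ne', Real.rpow_one]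
      rw [h6]
      simpa using h4.const_mul 2
    exact squeeze_zero (fun n => norm_nonneg _) (fun n => h2 n _) h5
  let f : HilbSum 𝕜 p →ₗ[𝕜] SupSum 𝕜 k :=
    { toFun := fun x => ⟨⟨fun n => Kn n (x n), hmem x⟩, htend x⟩
      map_add' := by
        intro a b
        apply Subtype.ext
        apply lp.ext
        funext n
        exact map_add (Kn n) (a n) (b n)
      map_smul' := by
        intro a b
        apply Subtype.ext
        apply lp.ext
        funext n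
        exact map_smul (Kn n) a (b n) }
  refine ⟨k, Kn, f.mkContinuous 2 ?_, ?_⟩
  · intro x
    have h3 : ∀ n, ‖Kn n (x n)‖ ≤ 2 * ‖x‖ := by
      intro n
      refine (h2 n _).trans ?_
      exact mul_le_mul_of_nonneg_left (lp.norm_apply_le_norm p_ne_zero' x n) (by norm_num)
    exact lp.norm_le_of_forall_le (f := (f x).1) (by positivity) h3
  · exact ⟨h1, h2, fun x n => rfl⟩

end Pool.Agent.R302.FS
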