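import Pool.Agent.R302.FS.Rows

set_option autoImplicit false

noncomputable section

open scoped ENNReal Topology
open Filter

namespace Pool.Agent.R302.FS

variable {𝕜 : Type} [RCLike 𝕜] {p : ℝ≥0∞} [Fact (1 ≤ p)]

/-- unit vectors -/
def ev {U : Type} (e : U → ℕ) (u : U) : Ell 𝕜 p := lp.single p (e u) (1 : 𝕜)

theorem ev_norm {U : Type} (e : U → ℕ) (u : U) : ‖(ev e u : Ell 𝕜 p)‖ = 1 := by
  unfold ev
  rw [lp.norm_single (lt_of_lt_of_le one_pos (Fact.out : 1 ≤ p))]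
  simp

theorem comb_apply {U : Type} (e : U → ℕ) (he : Function.Injective e) (V : Finset U) (c : U → 𝕜)
    (u' : U) (hu' : u' ∈ V) :
    (∑ u ∈ V, c u • (ev e u : Ell 𝕜 p)) (e u') = c u' := by
  classical
  have h : cf (𝕜 := 𝕜) (p := p) (e u') (∑ u ∈ V, c u • (ev e u : Ell 𝕜 p)) = c u' := by
    rw [map_sum, Finset.sum_eq_single u']
    · rw [map_smul, cf_apply]
      unfold ev
      rw [lp.single_apply_self]
      simp
    · intro u _ hne
      rw [map_smul, cf_apply]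
      unfold ev
      rw [lp.single_apply_ne]
      · simp
      · intro h; exact hne (he h).symm
    · intro h; exact absurd hu' h
  exact h

theorem comb_norm (hP : 0 < p.toReal) {U : Type} (e : U → ℕ) (he : Function.Injective e)
    (V : Finset U) (c : U → 𝕜) :
    ‖∑ u ∈ V, c u • (ev e u : Ell 𝕜 p)‖ ^ p.toReal = ∑ u ∈ V, ‖c u‖ ^ p.toReal := by
  classical
  let f : ℕ → 𝕜 := Function.extend e c 0
  have hf : ∀ u, f (e u) = c u := fun u => he.extend_apply c 0 u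
  have h1 : ∑ u ∈ V, c u • (ev e u : Ell 𝕜 p)
      = ∑ i ∈ V.image e, (lp.single p i (f i) : Ell 𝕜 p) := by
    rw [Finset.sum_image (fun a _ b _ h => he h)]
    refine Finset.sum_congr rfl (fun u _ => ?_)
    rw [hf]
    unfold ev
    rw [← lp.single_smul]
    simp
  rw [h1, lp.norm_sum_single hP, Finset.sum_image (fun a _ b _ h => he h)]
  refine Finset.sum_congr rfl (fun u _ => ?_)
  rw [hf]

theorem rowF_comb {U : Type} (e : U → ℕ) (he : Function.Injective e) (C : Finset U) (t : U → ℝ)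
    (c : U → 𝕜) :
    rowF e C t (∑ u ∈ C, c u • (ev e u : Ell 𝕜 p)) = ∑ u ∈ C, (t u : 𝕜) * c u := by
  rw [rowF_apply]
  refine Finset.sum_congr rfl (fun u hu => ?_)
  rw [comb_apply e he C c u hu]

/-- the components of the Hilbertian sum -/
def hc (n : ℕ) : HilbSum 𝕜 p →ₗ[𝕜] EuclideanSpace 𝕜 (Fin n) where
  toFun := fun z => z n
  map_add' := fun _ _ => rfl
  map_smul' := fun _ _ => rfl

theorem hc_apply (n : ℕ) (z : HilbSum 𝕜 p) : hc n z = z n := rfl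

theorem hc_comb (n : ℕ) (B : Ell 𝕜 p →L[𝕜] HilbSum 𝕜 p) {U : Type} (e : U → ℕ) (V : Finset U)
    (c : U → 𝕜) : hc n (B (∑ u ∈ V, c u • (ev e u : Ell 𝕜 p)))
      = ∑ u ∈ V, c u • hc n (B (ev e u)) := by
  rw [map_sum, map_sum]
  refine Finset.sum_congr rfl (fun u _ => ?_)
  rw [map_smul, map_smul]

theorem hc_norm_le (n : ℕ) (z : HilbSum 𝕜 p) : ‖hc n z‖ ≤ ‖z‖ :=
  lp.norm_apply_le_norm p_ne_zero' z n

theorem hc_sum_rpow (hP : 0 < p.toReal) (z : HilbSum 𝕜 p) (s : Finset ℕ) :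
    ∑ n ∈ s, ‖hc n z‖ ^ p.toReal ≤ ‖z‖ ^ p.toReal :=
  lp.sum_rpow_le_norm_rpow hP z s

theorem hc_sum_sq (hP : 0 < p.toReal) (hP2 : p.toReal ≤ 2) (z : HilbSum 𝕜 p) (s : Finset ℕ) :
    ∑ n ∈ s, ‖hc n z‖ ^ 2 ≤ ‖z‖ ^ 2 := by
  have h1 : ∀ n ∈ s, ‖hc n z‖ ^ 2 ≤ ‖z‖ ^ (2 - p.toReal) * ‖hc n z‖ ^ p.toReal := by
    intro n _
    have h2 : ‖hc n z‖ ^ 2 = ‖hc n z‖ ^ (2 - p.toReal) * ‖hc n z‖ ^ p.toReal := by
      rw [← Real.rpow_add_of_nonneg (norm_nonneg _) (by linarith) hP.le]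
      rw [show (2 - p.toReal + p.toReal) = ((2 : ℕ) : ℝ) by push_cast; ring]
      rw [Real.rpow_natCast]
    rw [h2]
    refine mul_le_mul_of_nonneg_right ?_ (by positivity)
    exact Real.rpow_le_rpow (norm_nonneg _) (hc_norm_le n z) (by linarith)
  refine (Finset.sum_le_sum h1).trans ?_
  rw [← Finset.mul_sum]
  refine (mul_le_mul_of_nonneg_left (hc_sum_rpow hP z s) (by positivity)).trans (le_of_eq ?_)
  rw [← Real.rpow_add_of_nonneg (norm_nonneg _) (by linarith) hP.le]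
  rw [show (2 - p.toReal + p.toReal) = ((2 : ℕ) : ℝ) by push_cast; ring]
  rw [Real.rpow_natCast]

end Pool.Agent.R302.FS
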