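import Pool.Agent.R302.FS.Walsh
import Pool.Agent.R302.FS.Test

set_option autoImplicit false

noncomputable section

open scoped ENNReal Topology
open Filter

namespace Pool.Agent.R302.FS

variable {𝕜 : Type} [RCLike 𝕜]

theorem wt_sq_sum (Q : ℝ) (hQ : 0 < Q) (V : Finset WI) (r : WI) (hr : WC r ⊆ V) :
    ∑ u ∈ V, Wm Q u.1 ^ (Q - 2) * (Wt Q r u) ^ 2 ≤ 1 := by
  classical
  rw [← Finset.sum_subset hr]
  · have h1 : ∀ u ∈ WC r, Wm Q u.1 ^ (Q - 2) * (Wt Q r u) ^ 2 ≤ ((2 : ℝ) ^ r.1)⁻¹ := by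
      intro u hu
      have hu1 : u.1 = r.1 := by
        unfold WC at hu
        simpa using (Finset.mem_product.1 hu).1
      have h2 : (Wt Q r u) ^ 2 ≤ Wm Q u.1 ^ 2 := by
        rw [← sq_abs (Wt Q r u)]
        exact pow_le_pow_left₀ (abs_nonneg _) (Wt_abs_le Q r u) 2
      calc Wm Q u.1 ^ (Q - 2) * (Wt Q r u) ^ 2 ≤ Wm Q u.1 ^ (Q - 2) * Wm Q u.1 ^ 2 :=
            mul_le_mul_of_nonneg_left h2 (by have := Wm_pos Q u.1; positivity)
        _ = Wm Q u.1 ^ Q := by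
            rw [← Real.rpow_natCast (Wm Q u.1) 2, ← Real.rpow_add (Wm_pos Q u.1)]
            congr 1
            push_cast
            ring
        _ = ((2 : ℝ) ^ r.1)⁻¹ := by rw [hu1, Wm_pow Q hQ]
    refine (Finset.sum_le_sum h1).trans ?_
    rw [Finset.sum_const, nsmul_eq_mul]
    have h3 : ((WC r).card : ℝ) = 2 ^ r.1 := by
      unfold WC
      rw [Finset.card_product]
      simp
    rw [h3, mul_inv_cancel₀ (by positivity)]
  · intro u _ hu
    rw [Wt_supp Q r u hu]; ring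

theorem walsh_sum (Q : ℝ) (hQ : 2 < Q) (F : Finset WI) (θ : WI → 𝕜) (hθ : ∀ r, ‖θ r‖ ≤ 1) :
    ∑ u ∈ F.biUnion WC, ‖∑ r ∈ F, θ r * (Wt Q r u : 𝕜)‖ ^ Q
      ≤ (F.card : ℝ) ^ (Q - 2) * F.card := by
  classical
  have hQ0 : 0 < Q := by linarith
  have hg : ∀ u, ‖∑ r ∈ F, θ r * (Wt Q r u : 𝕜)‖ ≤ F.card * Wm Q u.1 := by
    intro u
    refine (norm_sum_le _ _).trans ?_
    have h1 : ∀ r ∈ F, ‖θ r * (Wt Q r u : 𝕜)‖ ≤ Wm Q u.1 := by
      intro r _
      rw [norm_mul, RCLike.norm_ofReal]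
      calc ‖θ r‖ * |Wt Q r u| ≤ 1 * Wm Q u.1 :=
            mul_le_mul (hθ r) (Wt_abs_le Q r u) (abs_nonneg _) zero_le_one
        _ = _ := one_mul _
    refine (Finset.sum_le_sum h1).trans (le_of_eq ?_)
    rw [Finset.sum_const, nsmul_eq_mul]
  have h2 : ∀ u ∈ F.biUnion WC, ‖∑ r ∈ F, θ r * (Wt Q r u : 𝕜)‖ ^ Q
      ≤ (F.card : ℝ) ^ (Q - 2) * (Wm Q u.1 ^ (Q - 2) *
        ‖∑ r ∈ F, (Wt Q r u : 𝕜) • θ r‖ ^ 2) := by
    intro u _
    have e1 : ∑ r ∈ F, (Wt Q r u : 𝕜) • θ r = ∑ r ∈ F, θ r * (Wt Q r u : 𝕜) :=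
      Finset.sum_congr rfl (fun r _ => by rw [smul_eq_mul, mul_comm])
    rw [e1]
    set g := ‖∑ r ∈ F, θ r * (Wt Q r u : 𝕜)‖ with hgdef
    have hg0 : 0 ≤ g := norm_nonneg _
    have e2 : g ^ Q = g ^ (Q - 2) * g ^ 2 := by
      rw [← Real.rpow_natCast g 2, ← Real.rpow_add_of_nonneg hg0 (by linarith) (by positivity)]
      congr 1
      push_cast
      ring
    rw [e2, ← mul_assoc]
    refine mul_le_mul_of_nonneg_right ?_ (by positivity)
    rw [← Real.mul_rpow (by positivity) (Wm_pos Q u.1).le]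
    exact Real.rpow_le_rpow hg0 (hg u) (by linarith)
  refine (Finset.sum_le_sum h2).trans ?_
  rw [← Finset.mul_sum]
  refine mul_le_mul_of_nonneg_left ?_ (by positivity)
  rw [orth_sum (𝕜 := 𝕜) (F.biUnion WC) F (fun u => Wm Q u.1 ^ (Q - 2)) (fun u r => Wt Q r u) θ]
  · have h3 : ∀ r ∈ F, (∑ u ∈ F.biUnion WC, Wm Q u.1 ^ (Q - 2) * (Wt Q r u) ^ 2) * ‖θ r‖ ^ 2
        ≤ 1 := by
      intro r hr
      have h4 := wt_sq_sum Q hQ0 (F.biUnion WC) r (Finset.subset_biUnion_of_mem WC hr)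
      have h5 : ‖θ r‖ ^ 2 ≤ 1 := pow_le_one₀ (norm_nonneg _) (hθ r)
      calc _ ≤ 1 * (1 : ℝ) := mul_le_mul h4 h5 (by positivity) zero_le_one
        _ = 1 := one_mul _
    refine (Finset.sum_le_sum h3).trans (le_of_eq ?_)
    rw [Finset.sum_const, nsmul_eq_mul, mul_one]
  · intro r hr r' hr' hne
    exact Wt_orth Q (F.biUnion WC) r r' (Finset.subset_biUnion_of_mem WC hr) hne

variable {p : ℝ≥0∞} [Fact (1 ≤ p)]

/-- test vector for the row `(k, a)` -/
def wx (k : ℕ) (a : Finset ℕ) : Ell 𝕜 p :=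
  ∑ u ∈ WC (k, a), ((Wm p.toReal k * W u.2 a : ℝ) : 𝕜) • ev Encodable.encode u

theorem low_case (hp1 : 1 < p.toReal) (hp2 : p.toReal < 2) :
    ∃ T : Ell 𝕜 p →L[𝕜] C0 𝕜, FinStrictlySingular T ∧
      ∀ (k : ℕ → ℕ) (Kn : ∀ n : ℕ, EuclideanSpace 𝕜 (Fin n) →ₗ[𝕜] (Fin (k n) → 𝕜))
        (K : HilbSum 𝕜 p →L[𝕜] SupSum 𝕜 k), IsKMap k Kn K →
        T ∉ closedIdeal K (Ell 𝕜 p) (C0 𝕜) := by
  classical
  set P : ℝ := p.toReal with hPdef
  have hP0 : 0 < P := by linarith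
  obtain ⟨Q, hPQ⟩ : ∃ Q : ℝ, P.HolderConjugate Q := ⟨_, Real.HolderConjugate.conjExponent hp1⟩
  have hQ2 : 2 < Q := by
    have h1 := hPQ.inv_add_inv_eq_one
    have hQ0 := hPQ.symm.pos
    have h2 : (1 : ℝ) / 2 < P⁻¹ := by
      rw [← one_div]
      exact one_div_lt_one_div_of_lt hP0 hp2
    have h3 : Q⁻¹ < 1 / 2 := by linarith
    rw [← one_div, one_div_lt_one_div hQ0 (by norm_num)] at h3
    exact h3
  have hQ0 : 0 < Q := by linarith
  have he : Function.Injective (Encodable.encode : WI → ℕ) := Encodable.encode_injective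
  let φ : WI → (Ell 𝕜 p →L[𝕜] 𝕜) := fun r => rowF Encodable.encode (WC r) (Wt Q r)
  have hφ : ∀ r x, ‖φ r x‖ ≤ ‖x‖ := fun r x =>
    rowF_norm hPQ Encodable.encode he (WC r) (Wt Q r) (Wt_row_norm Q hQ0 r) x
  obtain ⟨T, hT, hTF⟩ := exists_op_rows φ hφ (by
    intro ε hε
    refine ⟨⌈(ε ^ Q)⁻¹⌉₊, ?_⟩
    intro x hx F hF
    obtain ⟨θ, hθ, h⟩ := few_rows hPQ Encodable.encode he WC (Wt Q) (Wt_supp Q) F x hx ε hF
    by_cases hs : F.card = 0
    · rw [hs]; exact Nat.zero_le _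
    have hs' : (0 : ℝ) < F.card := by exact_mod_cast Nat.pos_of_ne_zero hs
    have h1 := walsh_sum Q hQ2 F θ hθ
    have h2 : ε * F.card ≤ ((F.card : ℝ) ^ (Q - 2) * F.card) ^ (1 / Q) :=
      h.trans (Real.rpow_le_rpow (by positivity) h1 (by positivity))
    have h3 : (ε * F.card) ^ Q ≤ (F.card : ℝ) ^ (Q - 2) * F.card := by
      have := Real.rpow_le_rpow (by positivity) h2 hQ0.le
      rwa [← Real.rpow_mul (by positivity), one_div_mul_cancel hQ0.ne', Real.rpow_one] at this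
    rw [Real.mul_rpow hε.le hs'.le] at h3
    have h4 : (F.card : ℝ) ^ Q = ((F.card : ℝ) ^ (Q - 2) * F.card) * F.card := by
      rw [mul_assoc, ← pow_two, ← Real.rpow_natCast (F.card : ℝ) 2, ← Real.rpow_add hs']
      congr 1
      push_cast
      ring
    rw [h4] at h3
    have h5 : (0 : ℝ) < (F.card : ℝ) ^ (Q - 2) * F.card := by positivity
    have h6 : ε ^ Q * F.card ≤ 1 := by
      have : (ε ^ Q * F.card) * ((F.card : ℝ) ^ (Q - 2) * F.card)
          ≤ 1 * ((F.card : ℝ) ^ (Q - 2) * F.card) := by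
        calc _ = ε ^ Q * ((F.card : ℝ) ^ (Q - 2) * F.card * F.card) := by ring
          _ ≤ _ := by rw [one_mul]; exact h3
      exact le_of_mul_le_mul_right this h5
    have h7 : (F.card : ℝ) ≤ (ε ^ Q)⁻¹ := by
      rw [← one_div, le_div_iff₀ (by positivity)]
      linarith
    exact_mod_cast h7.trans (Nat.le_ceil _))
  refine ⟨T, hTF, ?_⟩
  intro kk Kn K hK hmem
  obtain ⟨c, hc0, r, B, hB⟩ := exists_factor hK T hmem
  -- the test vectors
  have hxn : ∀ (k : ℕ) (a : Finset ℕ), ‖(wx k a : Ell 𝕜 p)‖ ≤ 1 := by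
    intro k a
    have h1 : ‖(wx k a : Ell 𝕜 p)‖ ^ P = 1 := by
      unfold wx
      rw [hPdef, comb_norm hP0 _ he]
      have h2 : ∀ u ∈ WC (k, a), ‖((Wm p.toReal k * W u.2 a : ℝ) : 𝕜)‖ ^ p.toReal
          = ((2 : ℝ) ^ k)⁻¹ := by
        intro u _
        rw [RCLike.norm_ofReal, abs_mul, W_abs, mul_one, abs_of_pos (Wm_pos _ _), Wm_pow _ hP0]
      rw [Finset.sum_congr rfl h2, Finset.sum_const, nsmul_eq_mul]
      have h3 : ((WC (k, a)).card : ℝ) = 2 ^ k := by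
        unfold WC
        rw [Finset.card_product]
        simp
      rw [h3, mul_inv_cancel₀ (by positivity)]
    by_contra hlt
    push Not at hlt
    have := Real.one_lt_rpow hlt hP0
    linarith
  have hxT : ∀ (k : ℕ) (a : Finset ℕ), a ⊆ Finset.range k → 1 ≤ ‖T (wx k a : Ell 𝕜 p)‖ := by
    intro k a ha
    have h1 : (T (wx k a : Ell 𝕜 p)).1 (Encodable.encode ((k, a) : WI)) = 1 := by
      rw [hT]
      show rowF Encodable.encode (WC (k, a)) (Wt Q (k, a)) (wx k a) = 1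
      unfold wx
      rw [rowF_comb _ he]
      have h2 : ∀ u ∈ WC (k, a), ((Wt Q (k, a) u : ℝ) : 𝕜) * ((Wm p.toReal k * W u.2 a : ℝ) : 𝕜)
          = ((((2 : ℝ) ^ k)⁻¹ : ℝ) : 𝕜) := by
        intro u hu
        rw [← RCLike.ofReal_mul]
        congr 1
        unfold WC at hu
        have hu1 : u.1 = k := by simpa using (Finset.mem_product.1 hu).1
        have hu2 : u.2 ⊆ Finset.range k := by simpa using (Finset.mem_product.1 hu).2
        unfold Wt
        rw [if_pos ⟨hu1, ha, hu2⟩, W_symm a u.2]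
        have h3 : Wm Q k * Wm p.toReal k = ((2 : ℝ) ^ k)⁻¹ := by
          unfold Wm
          rw [← Real.rpow_add (by positivity)]
          have h4 := hPQ.inv_add_inv_eq_one
          rw [show -(1 / Q) + -(1 / p.toReal) = -1 by
            rw [one_div, one_div]; linarith]
          rw [Real.rpow_neg_one]
        calc Wm Q k * W u.2 a * (Wm p.toReal k * W u.2 a)
            = (Wm Q k * Wm p.toReal k) * (W u.2 a) ^ 2 := by ring
          _ = _ := by rw [h3, W_sq, mul_one]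
      rw [Finset.sum_congr rfl h2, Finset.sum_const, nsmul_eq_mul]
      have h3' : ((WC (k, a)).card : ℝ) = 2 ^ k := by
        unfold WC
        rw [Finset.card_product]
        simp
      have h3 : ((WC (k, a)).card : 𝕜) = ((2 ^ k : ℝ) : 𝕜) := by
        rw [← h3', RCLike.ofReal_natCast]
      rw [h3, ← RCLike.ofReal_mul, mul_inv_cancel₀ (by positivity)]
      simp
    have h2 := coord_le_norm (T (wx k a : Ell 𝕜 p)) (Encodable.encode ((k, a) : WI))
    rw [h1] at h2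
    simpa using h2
  -- the averaged estimate
  set β : ℝ := ∑ i, ‖B i‖ ^ 2 with hβ
  have hβ0 : 0 ≤ β := Finset.sum_nonneg (fun _ _ => by positivity)
  have hmain : ∀ k : ℕ, c ^ 2 ≤ ((2 : ℝ) ^ k) ^ (1 - 2 / P) * β := by
    intro k
    have hch : ∀ a : Finset ℕ, ∃ n : ℕ, a ⊆ Finset.range k →
        ∃ i : Fin r, c ≤ ‖hc n (B i (wx k a))‖ := by
      intro a
      by_cases ha : a ⊆ Finset.range k
      · obtain ⟨i, n, h⟩ := hB (wx k a) (hxn k a) (hxT k a ha)
        exact ⟨n, fun _ => ⟨i, h⟩⟩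
      · exact ⟨0, fun h => absurd h ha⟩
    choose nn hnn using hch
    let N : Finset ℕ := (Finset.range k).powerset.image nn
    have h1 : ∀ a ∈ (Finset.range k).powerset,
        c ^ 2 ≤ ∑ i, ∑ n ∈ N, ‖hc n (B i (wx k a))‖ ^ 2 := by
      intro a ha
      have ha' : a ⊆ Finset.range k := by simpa using ha
      obtain ⟨i, hi⟩ := hnn a ha'
      have h2 : ‖hc (nn a) (B i (wx k a))‖ ^ 2 ≤ ∑ n ∈ N, ‖hc n (B i (wx k a))‖ ^ 2 :=
        Finset.single_le_sum (f := fun n => ‖hc n (B i (wx k a))‖ ^ 2)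
          (fun _ _ => by positivity) (Finset.mem_image_of_mem nn ha)
      have h3 : ∑ n ∈ N, ‖hc n (B i (wx k a))‖ ^ 2
          ≤ ∑ i, ∑ n ∈ N, ‖hc n (B i (wx k a))‖ ^ 2 :=
        Finset.single_le_sum (f := fun i => ∑ n ∈ N, ‖hc n (B i (wx k a))‖ ^ 2)
          (fun _ _ => Finset.sum_nonneg (fun _ _ => by positivity)) (Finset.mem_univ i)
      have h4 : c ^ 2 ≤ ‖hc (nn a) (B i (wx k a))‖ ^ 2 := pow_le_pow_left₀ hc0.le hi 2
      linarith
    have h2 := Finset.sum_le_sum h1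
    rw [Finset.sum_const, nsmul_eq_mul, W_card] at h2
    -- swap the sums
    have h3 : ∑ a ∈ (Finset.range k).powerset, ∑ i, ∑ n ∈ N, ‖hc n (B i (wx k a))‖ ^ 2
        = ∑ i, ∑ n ∈ N, ∑ a ∈ (Finset.range k).powerset, ‖hc n (B i (wx k a))‖ ^ 2 := by
      rw [Finset.sum_comm]
      refine Finset.sum_congr rfl (fun i _ => ?_)
      rw [Finset.sum_comm]
    rw [h3] at h2
    have h4 : ∀ (i : Fin r) (n : ℕ),
        ∑ a ∈ (Finset.range k).powerset, ‖hc n (B i (wx k a))‖ ^ 2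
        = ∑ j ∈ (Finset.range k).powerset,
          ((2 : ℝ) ^ k * Wm P k ^ 2) * ‖hc n (B i (ev Encodable.encode ((k, j) : WI)))‖ ^ 2 := by
      intro i n
      have h5 : ∀ a ∈ (Finset.range k).powerset, ‖hc n (B i (wx k a))‖ ^ 2
          = 1 * ‖∑ j ∈ (Finset.range k).powerset, ((Wm P k * W j a : ℝ) : 𝕜) •
            hc n (B i (ev Encodable.encode ((k, j) : WI)))‖ ^ 2 := by
        intro a _
        rw [one_mul]
        unfold wx
        rw [hc_comb]
        unfold WC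
        rw [Finset.sum_product]
        simp only [Finset.sum_singleton]
        rfl
      rw [Finset.sum_congr rfl h5]
      rw [orth_sum (𝕜 := 𝕜) (Finset.range k).powerset (Finset.range k).powerset (fun _ => 1)
        (fun a j => Wm P k * W j a)
        (fun j => hc n (B i (ev Encodable.encode ((k, j) : WI))))]
      · refine Finset.sum_congr rfl (fun j _ => ?_)
        congr 1
        have h6 : ∀ a ∈ (Finset.range k).powerset, (1 : ℝ) * (Wm P k * W j a) ^ 2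
            = Wm P k ^ 2 := by
          intro a _
          rw [mul_pow, W_sq, mul_one, one_mul]
        rw [Finset.sum_congr rfl h6, Finset.sum_const, nsmul_eq_mul, W_card]
      · intro j hj j' hj' hne
        have h6 : ∀ a ∈ (Finset.range k).powerset,
            (1 : ℝ) * ((Wm P k * W j a) * (Wm P k * W j' a))
            = Wm P k ^ 2 * (W a j * W a j') := by
          intro a _
          rw [W_symm j a, W_symm j' a]; ring
        rw [Finset.sum_congr rfl h6, ← Finset.mul_sum,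
          W_orth k j j' (by simpa using hj) (by simpa using hj') hne, mul_zero]
    have h5 : ∑ i, ∑ n ∈ N, ∑ a ∈ (Finset.range k).powerset, ‖hc n (B i (wx k a))‖ ^ 2
        ≤ (2 : ℝ) ^ k * ((2 : ℝ) ^ k * Wm P k ^ 2) * β := by
      rw [hβ, Finset.mul_sum]
      refine Finset.sum_le_sum (fun i _ => ?_)
      rw [Finset.sum_congr rfl (fun n _ => h4 i n), Finset.sum_comm]
      have h6 : ∀ j ∈ (Finset.range k).powerset,
          ∑ n ∈ N, ((2 : ℝ) ^ k * Wm P k ^ 2) *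
            ‖hc n (B i (ev Encodable.encode ((k, j) : WI)))‖ ^ 2
          ≤ ((2 : ℝ) ^ k * Wm P k ^ 2) * ‖B i‖ ^ 2 := by
        intro j _
        rw [← Finset.mul_sum]
        refine mul_le_mul_of_nonneg_left ?_ (by positivity)
        refine (hc_sum_sq hP0 hp2.le _ N).trans ?_
        refine pow_le_pow_left₀ (norm_nonneg _) ?_ 2
        refine ((B i).le_opNorm _).trans (le_of_eq ?_)
        rw [ev_norm, mul_one]
      refine (Finset.sum_le_sum h6).trans (le_of_eq ?_)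
      rw [Finset.sum_const, nsmul_eq_mul, W_card]
      ring
    have h6 : (2 : ℝ) ^ k * c ^ 2 ≤ (2 : ℝ) ^ k * (((2 : ℝ) ^ k * Wm P k ^ 2) * β) := by
      have := h2.trans h5
      linarith
    have h7 : c ^ 2 ≤ ((2 : ℝ) ^ k * Wm P k ^ 2) * β :=
      le_of_mul_le_mul_left h6 (by positivity)
    have h8 : (2 : ℝ) ^ k * Wm P k ^ 2 = ((2 : ℝ) ^ k) ^ (1 - 2 / P) := by
      unfold Wm
      rw [← Real.rpow_natCast (((2 : ℝ) ^ k) ^ (-(1 / P))) 2, ← Real.rpow_mul (by positivity)]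
      rw [show (1 : ℝ) - 2 / P = 1 + -(1 / P) * ((2 : ℕ) : ℝ) by push_cast; ring]
      rw [Real.rpow_add (by positivity), Real.rpow_one]
    rw [h8] at h7
    exact h7
  -- letting `k → ∞`
  have hlim : Tendsto (fun k : ℕ => ((2 : ℝ) ^ k) ^ (1 - 2 / P) * β) atTop (𝓝 0) := by
    have hneg : 0 < -(1 - 2 / P) := by
      have : 1 < 2 / P := by
        rw [lt_div_iff₀ hP0]; linarith
      linarith
    have h1 : Tendsto (fun x : ℝ => x ^ (-(-(1 - 2 / P)))) atTop (𝓝 0) :=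
      tendsto_rpow_neg_atTop hneg
    have h2 : Tendsto (fun k : ℕ => (2 : ℝ) ^ k) atTop atTop :=
      tendsto_pow_atTop_atTop_of_one_lt (by norm_num)
    have h3 := (h1.comp h2).mul_const β
    simp only [neg_neg, zero_mul] at h3
    exact h3
  have hle : c ^ 2 ≤ 0 := ge_of_tendsto' hlim hmain
  have : 0 < c ^ 2 := by positivity
  linarith

end Pool.Agent.R302.FS
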