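import Pool.Agent.R302.FS.Test

set_option autoImplicit false

noncomputable section

open scoped ENNReal Topology
open Filter

namespace Pool.Agent.R302.FS

/-- value of the polynomial with coefficients `f` modulo `l` -/
def pe {d : ℕ} (l : ℕ) (f : Fin d → ℕ) (x : ℕ) : ℕ := (∑ i, f i * x ^ (i : ℕ)) % l

theorem pe_roots {d : ℕ} (l : ℕ) (hl : l.Prime) (f g : Fin d → ℕ) (hf : ∀ i, f i < l)
    (hg : ∀ i, g i < l) (hne : f ≠ g) :
    ((Finset.range l).filter (fun x => pe l f x = pe l g x)).card ≤ d := by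
  classical
  have : Fact l.Prime := ⟨hl⟩
  let h : Polynomial (ZMod l) :=
    ∑ i : Fin d, Polynomial.C (((f i : ℕ) : ZMod l) - ((g i : ℕ) : ZMod l)) *
      Polynomial.X ^ (i : ℕ)
  have hcoeff : ∀ i0 : Fin d, h.coeff (i0 : ℕ) = ((f i0 : ℕ) : ZMod l) - ((g i0 : ℕ) : ZMod l) := by
    intro i0
    simp only [h, Polynomial.finsetSum_coeff, Polynomial.coeff_C_mul, Polynomial.coeff_X_pow]
    rw [Finset.sum_eq_single i0]
    · simp
    · intro i _ hi
      rw [if_neg]
      · ring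
      · intro h1; exact hi (Fin.ext h1.symm)
    · intro h1; exact absurd (Finset.mem_univ _) h1
  have hh0 : h ≠ 0 := by
    intro h0
    apply hne
    funext i
    have h1 := hcoeff i
    rw [h0, Polynomial.coeff_zero] at h1
    have h2 : ((f i : ℕ) : ZMod l) = ((g i : ℕ) : ZMod l) := (sub_eq_zero.1 h1.symm)
    rw [ZMod.natCast_eq_natCast_iff'] at h2
    rwa [Nat.mod_eq_of_lt (hf i), Nat.mod_eq_of_lt (hg i)] at h2
  have hdeg : h.natDegree ≤ d := by
    refine Polynomial.natDegree_sum_le_of_forall_le _ _ ?_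
    intro i _
    refine (Polynomial.natDegree_C_mul_X_pow_le _ _).trans i.2.le
  have hcard : ((Finset.range l).filter (fun x => pe l f x = pe l g x)).card
      ≤ h.roots.toFinset.card := by
    refine Finset.card_le_card_of_injOn (fun x => ((x : ℕ) : ZMod l)) ?_ ?_
    · intro x hx
      have hx' := (Finset.mem_filter.1 hx).2
      simp only [Finset.mem_coe, Multiset.mem_toFinset]
      rw [Polynomial.mem_roots hh0, Polynomial.IsRoot.def]
      simp only [h, Polynomial.eval_finsetSum, Polynomial.eval_mul, Polynomial.eval_C,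
        Polynomial.eval_pow, Polynomial.eval_X]
      unfold pe at hx'
      have h2 := (ZMod.natCast_eq_natCast_iff' _ _ l).2 hx'
      push_cast at h2
      simp only [sub_mul, Finset.sum_sub_distrib]
      rw [h2, sub_self]
    · intro x hx y hy hxy
      have hx' : x < l := by
        have := (Finset.mem_filter.1 hx).1
        simpa using this
      have hy' : y < l := by
        have := (Finset.mem_filter.1 hy).1
        simpa using this
      have h2 := (ZMod.natCast_eq_natCast_iff' _ _ l).1 hxy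
      rwa [Nat.mod_eq_of_lt hx', Nat.mod_eq_of_lt hy'] at h2
  refine hcard.trans ((Multiset.toFinset_card_le _).trans ((Polynomial.card_roots' h).trans hdeg))

/-- rows -/
abbrev PR (d : ℕ) : Type := ℕ × (Fin d → ℕ)

/-- coordinates -/
abbrev PU : Type := ℕ × ℕ × ℕ

open Classical in
/-- support of a row: the graph of the polynomial -/
def PC {d : ℕ} (r : PR d) : Finset PU :=
  if r.1.Prime ∧ ∀ i, r.2 i < r.1 then
    (Finset.range r.1).image (fun x => (r.1, x, pe r.1 r.2 x)) else ∅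

theorem PC_fst {d : ℕ} (r : PR d) (u : PU) (hu : u ∈ PC r) : u.1 = r.1 := by
  unfold PC at hu
  split_ifs at hu with h
  · obtain ⟨x, _, rfl⟩ := Finset.mem_image.1 hu
    rfl
  · exact absurd hu (Finset.notMem_empty _)

theorem PC_valid {d : ℕ} (r : PR d) (u : PU) (hu : u ∈ PC r) :
    r.1.Prime ∧ ∀ i, r.2 i < r.1 := by
  unfold PC at hu
  split_ifs at hu with h
  · exact h
  · exact absurd hu (Finset.notMem_empty _)

theorem PC_card {d : ℕ} (r : PR d) (h : r.1.Prime ∧ ∀ i, r.2 i < r.1) : (PC r).card = r.1 := by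
  unfold PC
  rw [if_pos h, Finset.card_image_of_injective, Finset.card_range]
  intro x y hxy
  simp only [Prod.mk.injEq] at hxy
  exact hxy.2.1

theorem PC_card_le {d : ℕ} (r : PR d) : (PC r).card ≤ r.1 := by
  by_cases h : r.1.Prime ∧ ∀ i, r.2 i < r.1
  · exact (PC_card r h).le
  · unfold PC
    rw [if_neg h]; simp

theorem PC_inter {d : ℕ} (r r' : PR d) (hne : r ≠ r') : (PC r ∩ PC r').card ≤ d := by
  classical
  by_cases hemp : (PC r ∩ PC r').Nonempty
  · obtain ⟨u, hu⟩ := hemp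
    have hu1 := (Finset.mem_inter.1 hu).1
    have hu2 := (Finset.mem_inter.1 hu).2
    have hv1 := PC_valid r u hu1
    have hv2 := PC_valid r' u hu2
    have hfst : r.1 = r'.1 := by rw [← PC_fst r u hu1, PC_fst r' u hu2]
    have hne2 : r.2 ≠ r'.2 := fun h => hne (Prod.ext hfst h)
    have hsub : PC r ∩ PC r' ⊆ ((Finset.range r.1).filter
        (fun x => pe r.1 r.2 x = pe r.1 r'.2 x)).image (fun x => (r.1, x, pe r.1 r.2 x)) := by
      intro w hw
      have hw1 := (Finset.mem_inter.1 hw).1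
      have hw2 := (Finset.mem_inter.1 hw).2
      unfold PC at hw1 hw2
      rw [if_pos hv1] at hw1
      rw [if_pos hv2] at hw2
      obtain ⟨x, hx, rfl⟩ := Finset.mem_image.1 hw1
      obtain ⟨y, hy, hxy⟩ := Finset.mem_image.1 hw2
      simp only [Prod.mk.injEq] at hxy
      obtain ⟨_, h2, h3⟩ := hxy
      refine Finset.mem_image.2 ⟨x, Finset.mem_filter.2 ⟨hx, ?_⟩, rfl⟩
      rw [← h3, h2, hfst]
    refine (Finset.card_le_card hsub).trans (Finset.card_image_le.trans ?_)
    exact pe_roots r.1 hv1.1 r.2 r'.2 hv1.2 (fun i => hfst ▸ hv2.2 i) hne2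
  · rw [Finset.not_nonempty_iff_eq_empty] at hemp
    rw [hemp]; simp

/-- multiplicity of a coordinate in a family of rows -/
def mult {d : ℕ} (F : Finset (PR d)) (u : PU) : ℕ := (F.filter (fun r => u ∈ PC r)).card

theorem mult_le {d : ℕ} (F : Finset (PR d)) (u : PU) : mult F u ≤ F.card :=
  Finset.card_filter_le _ _

/-- weight -/
def pw (u : PU) : ℝ := ((u.1 : ℕ) : ℝ)⁻¹

theorem pw_nonneg (u : PU) : 0 ≤ pw u := by unfold pw; positivity

theorem sum_pw_le {d : ℕ} (r : PR d) (A : Finset PU) (hA : A ⊆ PC r) (N : ℕ) (hN : A.card ≤ N) :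
    ∑ u ∈ A, pw u ≤ N / r.1 := by
  have h1 : ∀ u ∈ A, pw u = ((r.1 : ℕ) : ℝ)⁻¹ := by
    intro u hu
    unfold pw
    rw [PC_fst r u (hA hu)]
  rw [Finset.sum_congr rfl h1, Finset.sum_const, nsmul_eq_mul, div_eq_mul_inv]
  exact mul_le_mul_of_nonneg_right (by exact_mod_cast hN) (by positivity)

theorem sum_mult {d : ℕ} (F : Finset (PR d)) (V : Finset PU) :
    ∑ u ∈ V, pw u * mult F u ≤ F.card := by
  classical
  have h1 : ∀ u ∈ V, pw u * mult F u = ∑ r ∈ F, (if u ∈ PC r then pw u else 0) := by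
    intro u _
    unfold mult
    rw [Finset.card_filter]
    push_cast
    rw [Finset.mul_sum]
    refine Finset.sum_congr rfl (fun r _ => ?_)
    split_ifs <;> simp
  rw [Finset.sum_congr rfl h1, Finset.sum_comm]
  have h2 : ∀ r ∈ F, ∑ u ∈ V, (if u ∈ PC r then pw u else 0) ≤ 1 := by
    intro r _
    rw [← Finset.sum_filter]
    have hA : V.filter (fun u => u ∈ PC r) ⊆ PC r := fun u hu => (Finset.mem_filter.1 hu).2
    refine (sum_pw_le r _ hA r.1 ((Finset.card_le_card hA).trans (PC_card_le r))).trans ?_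
    exact div_self_le_one _
  refine (Finset.sum_le_sum h2).trans ?_
  rw [Finset.sum_const, nsmul_eq_mul, mul_one]

theorem sum_mult_off {d : ℕ} (F : Finset (PR d)) (V : Finset PU) (l0 : ℝ) (hl0 : 0 < l0)
    (hF : ∀ r ∈ F, l0 ≤ r.1) :
    ∑ u ∈ V, pw u * ((mult F u : ℝ) * mult F u - mult F u) ≤ (F.card : ℝ) ^ 2 * (d / l0) := by
  classical
  have h1 : ∀ u ∈ V, pw u * ((mult F u : ℝ) * mult F u - mult F u)
      = ∑ q ∈ F.offDiag, (if u ∈ PC q.1 ∩ PC q.2 then pw u else 0) := by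
    intro u _
    have e1 : ((mult F u : ℝ) * mult F u - mult F u)
        = ((F.filter (fun r => u ∈ PC r)).offDiag.card : ℝ) := by
      rw [Finset.offDiag_card]
      rw [Nat.cast_sub (Nat.le_mul_self _)]
      push_cast
      rfl
    have e2 : (F.filter (fun r => u ∈ PC r)).offDiag
        = F.offDiag.filter (fun q => u ∈ PC q.1 ∩ PC q.2) := by
      ext q
      simp only [Finset.mem_offDiag, Finset.mem_filter, Finset.mem_inter]
      tauto
    rw [e1, e2, Finset.card_filter]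
    push_cast
    rw [Finset.mul_sum]
    refine Finset.sum_congr rfl (fun r _ => ?_)
    split_ifs <;> simp
  rw [Finset.sum_congr rfl h1, Finset.sum_comm]
  have h2 : ∀ q ∈ F.offDiag, ∑ u ∈ V, (if u ∈ PC q.1 ∩ PC q.2 then pw u else 0) ≤ d / l0 := by
    intro q hq
    obtain ⟨hq1, hq2, hq3⟩ := Finset.mem_offDiag.1 hq
    rw [← Finset.sum_filter]
    have hA : V.filter (fun u => u ∈ PC q.1 ∩ PC q.2) ⊆ PC q.1 ∩ PC q.2 :=
      fun u hu => (Finset.mem_filter.1 hu).2
    have hA' : V.filter (fun u => u ∈ PC q.1 ∩ PC q.2) ⊆ PC q.1 :=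
      hA.trans Finset.inter_subset_left
    refine (sum_pw_le q.1 _ hA' d ((Finset.card_le_card hA).trans
      (PC_inter q.1 q.2 hq3))).trans ?_
    have h3 := hF q.1 hq1
    exact div_le_div_of_nonneg_left (by positivity) hl0 h3
  refine (Finset.sum_le_sum h2).trans ?_
  rw [Finset.sum_const, nsmul_eq_mul]
  refine mul_le_mul_of_nonneg_right ?_ (by positivity)
  have h3 : F.offDiag.card ≤ F.card ^ 2 := by
    rw [Finset.offDiag_card, pow_two]
    exact Nat.sub_le _ _
  exact_mod_cast h3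

/-- signs chosen by the parallelogram law -/
theorem exists_signs {𝕜 : Type} [RCLike 𝕜] {J Bt : Type} {H : Bt → Type}
    [∀ b, NormedAddCommGroup (H b)] [∀ b, InnerProductSpace 𝕜 (H b)] (SB : Finset Bt)
    (SJ : Finset J) (v : ∀ b, J → H b) :
    ∃ ε : J → ℝ, (∀ j, |ε j| = 1) ∧
      ∑ b ∈ SB, ∑ j ∈ SJ, ‖v b j‖ ^ 2 ≤ ∑ b ∈ SB, ‖∑ j ∈ SJ, (ε j : 𝕜) • v b j‖ ^ 2 := by
  classical
  induction SJ using Finset.induction_on with
  | empty => exact ⟨fun _ => 1, fun _ => by simp, by simp⟩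
  | insert j0 SJ hj0 ih =>
    obtain ⟨ε, hε, h⟩ := ih
    set S : ∀ b, H b := fun b => ∑ j ∈ SJ, (ε j : 𝕜) • v b j with hS
    have hpar : ∑ b ∈ SB, ‖S b + v b j0‖ ^ 2 + ∑ b ∈ SB, ‖S b - v b j0‖ ^ 2
        = 2 * (∑ b ∈ SB, ‖S b‖ ^ 2 + ∑ b ∈ SB, ‖v b j0‖ ^ 2) := by
      rw [← Finset.sum_add_distrib, ← Finset.sum_add_distrib, Finset.mul_sum]
      refine Finset.sum_congr rfl (fun b _ => ?_)
      have := parallelogram_law_with_norm 𝕜 (S b) (v b j0)
      nlinarith [this]
    have hgoal : ∑ b ∈ SB, ∑ j ∈ insert j0 SJ, ‖v b j‖ ^ 2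
        ≤ ∑ b ∈ SB, ‖S b‖ ^ 2 + ∑ b ∈ SB, ‖v b j0‖ ^ 2 := by
      rw [← Finset.sum_add_distrib]
      have h1 : ∀ b ∈ SB, ∑ j ∈ insert j0 SJ, ‖v b j‖ ^ 2
          = ‖v b j0‖ ^ 2 + ∑ j ∈ SJ, ‖v b j‖ ^ 2 := fun b _ => Finset.sum_insert hj0
      rw [Finset.sum_congr rfl h1, Finset.sum_add_distrib, Finset.sum_add_distrib]
      linarith
    have hupd : ∀ (s : ℝ) (b : Bt), ∑ j ∈ insert j0 SJ, ((Function.update ε j0 s j : ℝ) : 𝕜) • v b j
        = S b + (s : 𝕜) • v b j0 := by
      intro s b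
      rw [Finset.sum_insert hj0, Function.update_self, add_comm]
      congr 1
      refine Finset.sum_congr rfl (fun j hj => ?_)
      rw [Function.update_of_ne (by rintro rfl; exact hj0 hj)]
    by_cases hc : ∑ b ∈ SB, ‖S b‖ ^ 2 + ∑ b ∈ SB, ‖v b j0‖ ^ 2 ≤ ∑ b ∈ SB, ‖S b + v b j0‖ ^ 2
    · refine ⟨Function.update ε j0 1, ?_, ?_⟩
      · intro j
        by_cases hj : j = j0
        · subst hj; simp
        · rw [Function.update_of_ne hj]; exact hε j
      · refine hgoal.trans (hc.trans (le_of_eq ?_))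
        refine Finset.sum_congr rfl (fun b _ => ?_)
        rw [hupd]; simp
    · refine ⟨Function.update ε j0 (-1), ?_, ?_⟩
      · intro j
        by_cases hj : j = j0
        · subst hj; simp
        · rw [Function.update_of_ne hj]; exact hε j
      · push Not at hc
        refine hgoal.trans ?_
        have h2 : ∑ b ∈ SB, ‖∑ j ∈ insert j0 SJ, ((Function.update ε j0 (-1) j : ℝ) : 𝕜) • v b j‖ ^ 2
            = ∑ b ∈ SB, ‖S b - v b j0‖ ^ 2 := by
          refine Finset.sum_congr rfl (fun b _ => ?_)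
          rw [hupd]
          congr 2
          simp [sub_eq_add_neg]
        rw [h2]
        linarith

end Pool.Agent.R302.FS
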