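import Pool.Agent.R302.FS.Few

set_option autoImplicit false

noncomputable section

open scoped ENNReal Topology
open Filter

namespace Pool.Agent.R302.FS

variable {𝕜 : Type} [RCLike 𝕜]

theorem closedIdeal_approx {𝕜 : Type} [RCLike 𝕜] {V W : Type} [NormedAddCommGroup V]
    [NormedSpace 𝕜 V] [NormedAddCommGroup W] [NormedSpace 𝕜 W] (T : V →L[𝕜] W)
    {X Y : Type} [NormedAddCommGroup X] [NormedSpace 𝕜 X] [NormedAddCommGroup Y]
    [NormedSpace 𝕜 Y] (S : X →L[𝕜] Y) (hS : S ∈ closedIdeal T X Y) (ε : ℝ) (hε : 0 < ε) :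
    ∃ (r : ℕ) (A : Fin r → (W →L[𝕜] Y)) (B : Fin r → (X →L[𝕜] V)),
      ‖S - ∑ i, (A i).comp (T.comp (B i))‖ < ε := by
  unfold closedIdeal at hS
  have h := Metric.mem_closure_iff.1 hS ε hε
  obtain ⟨S', ⟨r, A, B, hS'⟩, hd⟩ := h
  refine ⟨r, A, B, ?_⟩
  rw [← hS', ← dist_eq_norm]
  exact hd

theorem closedIdeal_factor {𝕜 : Type} [RCLike 𝕜] {V W : Type} [NormedAddCommGroup V]
    [NormedSpace 𝕜 V] [NormedAddCommGroup W] [NormedSpace 𝕜 W] (T : V →L[𝕜] W)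
    {X Y : Type} [NormedAddCommGroup X] [NormedSpace 𝕜 X] [NormedAddCommGroup Y]
    [NormedSpace 𝕜 Y] (S : X →L[𝕜] Y) (hS : S ∈ closedIdeal T X Y) :
    ∃ η : ℝ, 0 < η ∧ ∃ (r : ℕ) (B : Fin r → (X →L[𝕜] V)),
      ∀ x : X, ‖x‖ ≤ 1 → 1 ≤ ‖S x‖ → ∃ i : Fin r, η ≤ ‖T (B i x)‖ := by
  obtain ⟨r, A, B, hd⟩ := closedIdeal_approx T S hS (1/2) (by norm_num)
  set a : ℝ := ∑ i, ‖A i‖ with ha
  have ha0 : 0 ≤ a := Finset.sum_nonneg (fun _ _ => norm_nonneg _)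
  refine ⟨1 / (2 * (a + 1)), by positivity, r, B, ?_⟩
  intro x hx hSx
  by_contra hcon
  push Not at hcon
  set S' : X →L[𝕜] Y := ∑ i, (A i).comp (T.comp (B i)) with hS'
  have hSx' : ‖S' x‖ ≤ a * (1 / (2 * (a + 1))) := by
    have h1 : S' x = ∑ i, A i (T (B i x)) := by
      rw [hS', sum_apply]
      rfl
    rw [h1, ha, Finset.sum_mul]
    refine (norm_sum_le _ _).trans (Finset.sum_le_sum ?_)
    intro i _
    refine ((A i).le_opNorm _).trans ?_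
    exact mul_le_mul_of_nonneg_left (hcon i).le (norm_nonneg _)
  have hlt : a * (1 / (2 * (a + 1))) < 1/2 := by
    rw [show a * (1 / (2 * (a + 1))) = a / (2 * (a + 1)) by ring]
    rw [div_lt_iff₀ (by positivity)]
    linarith
  have h2 : ‖S x - S' x‖ < 1/2 := by
    have h3 : ‖S x - S' x‖ ≤ ‖S - S'‖ * ‖x‖ := (S - S').le_opNorm x
    calc ‖S x - S' x‖ ≤ ‖S - S'‖ * ‖x‖ := h3
      _ ≤ ‖S - S'‖ * 1 := mul_le_mul_of_nonneg_left hx (norm_nonneg _)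
      _ < 1/2 := by rw [mul_one]; exact hd
  have h5 : ‖S x‖ ≤ ‖S x - S' x‖ + ‖S' x‖ := by
    have := norm_add_le (S x - S' x) (S' x)
    simpa using this
  linarith

section
variable {p : ℝ≥0∞} [Fact (1 ≤ p)]

theorem p_ne_zero' : p ≠ 0 := by
  have h : 1 ≤ p := Fact.out
  intro h0
  rw [h0] at h
  simp at h

/-- coordinate functional -/
def cf (j : ℕ) : Ell 𝕜 p →L[𝕜] 𝕜 :=
  LinearMap.mkContinuous
    { toFun := fun x : Ell 𝕜 p => x j
      map_add' := fun _ _ => rfl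
      map_smul' := fun _ _ => rfl } 1 (by
    intro x
    rw [one_mul]
    exact lp.norm_apply_le_norm p_ne_zero' x j)

theorem cf_apply (j : ℕ) (x : Ell 𝕜 p) : cf j x = x j := rfl

theorem holder_fin {Q : ℝ} (hPQ : p.toReal.HolderConjugate Q) {U : Type} (e : U → ℕ)
    (he : Function.Injective e) (V : Finset U) (g : U → 𝕜) (x : Ell 𝕜 p) :
    ‖∑ u ∈ V, g u * x (e u)‖ ≤ (∑ u ∈ V, ‖g u‖ ^ Q) ^ (1 / Q) * ‖x‖ := by
  classical
  have hP0 : 0 < p.toReal := hPQ.pos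
  have h1 : ‖∑ u ∈ V, g u * x (e u)‖ ≤ ∑ u ∈ V, ‖g u‖ * ‖x (e u)‖ := by
    refine (norm_sum_le _ _).trans (le_of_eq ?_)
    refine Finset.sum_congr rfl (fun u _ => norm_mul _ _)
  have h2 := Real.inner_le_Lp_mul_Lq_of_nonneg V hPQ.symm (f := fun u => ‖g u‖)
    (g := fun u => ‖x (e u)‖) (fun i _ => norm_nonneg _) (fun i _ => norm_nonneg _)
  refine h1.trans (h2.trans ?_)
  refine mul_le_mul_of_nonneg_left ?_ (by positivity)
  have h3 : ∑ u ∈ V, ‖x (e u)‖ ^ p.toReal ≤ ‖x‖ ^ p.toReal := by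
    have h4 := lp.sum_rpow_le_norm_rpow hP0 x (V.image e)
    rw [Finset.sum_image (fun a _ b _ h => he h)] at h4
    exact h4
  calc (∑ u ∈ V, ‖x (e u)‖ ^ p.toReal) ^ (1 / p.toReal)
      ≤ (‖x‖ ^ p.toReal) ^ (1 / p.toReal) :=
        Real.rpow_le_rpow (by positivity) h3 (by positivity)
    _ = ‖x‖ := by
        rw [← Real.rpow_mul (norm_nonneg _), mul_one_div_cancel hP0.ne', Real.rpow_one]

/-- a finitely supported row -/
def rowF {U : Type} (e : U → ℕ) (C : Finset U) (t : U → ℝ) : Ell 𝕜 p →L[𝕜] 𝕜 :=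
  ∑ u ∈ C, (t u : 𝕜) • cf (e u)

theorem rowF_apply {U : Type} (e : U → ℕ) (C : Finset U) (t : U → ℝ) (x : Ell 𝕜 p) :
    rowF e C t x = ∑ u ∈ C, (t u : 𝕜) * x (e u) := by
  unfold rowF
  rw [sum_apply]
  rfl

theorem rowF_norm {Q : ℝ} (hPQ : p.toReal.HolderConjugate Q) {U : Type} (e : U → ℕ)
    (he : Function.Injective e) (C : Finset U) (t : U → ℝ)
    (ht : ∑ u ∈ C, |t u| ^ Q ≤ 1) (x : Ell 𝕜 p) : ‖rowF e C t x‖ ≤ ‖x‖ := by
  rw [rowF_apply]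
  refine (holder_fin hPQ e he C (fun u => (t u : 𝕜)) x).trans ?_
  have h1 : (∑ u ∈ C, ‖(t u : 𝕜)‖ ^ Q) ^ (1 / Q) ≤ 1 := by
    refine Real.rpow_le_one (by positivity) ?_ (by have := hPQ.symm.pos; positivity)
    simpa using ht
  calc _ ≤ 1 * ‖x‖ := mul_le_mul_of_nonneg_right h1 (norm_nonneg _)
    _ = ‖x‖ := one_mul _

theorem few_rows {Q : ℝ} (hPQ : p.toReal.HolderConjugate Q) {R U : Type} [DecidableEq U]
    (e : U → ℕ)
    (he : Function.Injective e) (C : R → Finset U) (t : R → U → ℝ)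
    (ht : ∀ r u, u ∉ C r → t r u = 0) (F : Finset R) (x : Ell 𝕜 p) (hx : ‖x‖ ≤ 1)
    (ε : ℝ) (hF : ∀ r ∈ F, ε ≤ ‖rowF (𝕜 := 𝕜) e (C r) (t r) x‖) :
    ∃ θ : R → 𝕜, (∀ r, ‖θ r‖ ≤ 1) ∧
      ε * F.card ≤ (∑ u ∈ F.biUnion C, ‖∑ r ∈ F, θ r * (t r u : 𝕜)‖ ^ Q) ^ (1 / Q) := by
  classical
  have hQ0 : 0 < Q := hPQ.symm.pos
  set φ : R → 𝕜 := fun r => rowF (𝕜 := 𝕜) e (C r) (t r) x with hφ
  refine ⟨fun r => (starRingEnd 𝕜) (φ r) / (‖φ r‖ : 𝕜), ?_, ?_⟩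
  · intro r
    rw [norm_div, RCLike.norm_conj]
    simp only [RCLike.norm_ofReal, abs_norm]
    exact div_self_le_one _
  · set θ : R → 𝕜 := fun r => (starRingEnd 𝕜) (φ r) / (‖φ r‖ : 𝕜) with hθ
    have hmul : ∀ r, θ r * φ r = (‖φ r‖ : 𝕜) := by
      intro r
      by_cases h0 : φ r = 0
      · simp [h0]
      · have h1 : (‖φ r‖ : 𝕜) ≠ 0 := by simpa using h0
        simp only [hθ]
        rw [div_mul_eq_mul_div, RCLike.conj_mul, div_eq_iff h1]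
        ring
    have h1 : ∑ r ∈ F, θ r * φ r = ∑ u ∈ F.biUnion C, (∑ r ∈ F, θ r * (t r u : 𝕜)) * x (e u) := by
      have h2 : ∀ r ∈ F, φ r = ∑ u ∈ F.biUnion C, (t r u : 𝕜) * x (e u) := by
        intro r hr
        simp only [hφ]
        rw [rowF_apply]
        refine Finset.sum_subset (Finset.subset_biUnion_of_mem C hr) ?_
        intro u _ hu
        rw [ht r u hu]; simp
      rw [Finset.sum_congr rfl (fun r hr => by rw [h2 r hr])]
      simp only [Finset.mul_sum, Finset.sum_mul]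
      rw [Finset.sum_comm]
      refine Finset.sum_congr rfl (fun u _ => Finset.sum_congr rfl (fun r _ => by ring))
    have h3 : ε * F.card ≤ ‖∑ r ∈ F, θ r * φ r‖ := by
      rw [Finset.sum_congr rfl (fun r _ => hmul r)]
      have h4 : ∑ r ∈ F, (‖φ r‖ : 𝕜) = ((∑ r ∈ F, ‖φ r‖ : ℝ) : 𝕜) := by push_cast; rfl
      rw [h4, RCLike.norm_ofReal, abs_of_nonneg (Finset.sum_nonneg (fun _ _ => norm_nonneg _))]
      have h5 : ∑ r ∈ F, ε ≤ ∑ r ∈ F, ‖φ r‖ := Finset.sum_le_sum hF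
      rw [Finset.sum_const, nsmul_eq_mul] at h5
      linarith
    rw [h1] at h3
    refine h3.trans ((holder_fin hPQ e he _ _ x).trans ?_)
    calc _ ≤ (∑ u ∈ F.biUnion C, ‖∑ r ∈ F, θ r * (t r u : 𝕜)‖ ^ Q) ^ (1 / Q) * 1 :=
          mul_le_mul_of_nonneg_left hx (by positivity)
      _ = _ := mul_one _

/-- the operator with prescribed rows -/
theorem exists_op_rows {R : Type} [Encodable R] (φ : R → (Ell 𝕜 p →L[𝕜] 𝕜))
    (hφ : ∀ r x, ‖φ r x‖ ≤ ‖x‖)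
    (h : ∀ ε : ℝ, 0 < ε → ∃ S : ℕ, ∀ x : Ell 𝕜 p, ‖x‖ ≤ 1 → ∀ F : Finset R,
      (∀ r ∈ F, ε ≤ ‖φ r x‖) → F.card ≤ S) :
    ∃ T : Ell 𝕜 p →L[𝕜] C0 𝕜, (∀ x r, (T x).1 (Encodable.encode r) = φ r x) ∧
      FinStrictlySingular T := by
  classical
  let Φ : ℕ → (Ell 𝕜 p →L[𝕜] 𝕜) := fun i =>
    match Encodable.decode₂ R i with
    | some r => φ r
    | none => 0
  have hΦs : ∀ r, Φ (Encodable.encode r) = φ r := by
    intro r
    simp only [Φ]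
    rw [Encodable.encodek₂]
  have hΦn : ∀ i, (∀ r : R, Encodable.encode r ≠ i) → Φ i = 0 := by
    intro i hi
    simp only [Φ]
    cases h1 : Encodable.decode₂ R i with
    | none => rfl
    | some r =>
      exfalso
      exact hi r (Encodable.mem_decode₂.1 (by rw [h1]; rfl))
  have hΦ : ∀ i x, ‖Φ i x‖ ≤ ‖x‖ := by
    intro i x
    by_cases hi : ∃ r : R, Encodable.encode r = i
    · obtain ⟨r, rfl⟩ := hi
      rw [hΦs]; exact hφ r x
    · push Not at hi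
      rw [hΦn i hi]; simp
  have hfew : Few (𝕜 := 𝕜) (fun i (x : Ell 𝕜 p) => Φ i x) := by
    intro ε hε
    obtain ⟨S, hS⟩ := h ε hε
    refine ⟨S, ?_⟩
    intro x hx F hF
    have hsub : F ⊆ (F.preimage (Encodable.encode : R → ℕ)
        (Encodable.encode_injective.injOn)).image Encodable.encode := by
      intro i hi
      by_cases hr : ∃ r : R, Encodable.encode r = i
      · obtain ⟨r, rfl⟩ := hr
        exact Finset.mem_image.2 ⟨r, Finset.mem_preimage.2 hi, rfl⟩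
      · push Not at hr
        have h1 := hF i hi
        simp only [hΦn i hr] at h1
        simp at h1
        linarith
    refine (Finset.card_le_card hsub).trans (Finset.card_image_le.trans (hS x hx _ ?_))
    intro r hr
    have h1 := hF _ (Finset.mem_preimage.1 hr)
    simp only [hΦs] at h1
    exact h1
  obtain ⟨T, hT⟩ := exists_op Φ hΦ hfew
  refine ⟨T, ?_, ?_⟩
  · intro x r
    rw [hT, hΦs]
  · apply fss_of_few
    intro ε hε
    obtain ⟨S, hS⟩ := hfew ε hε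
    refine ⟨S, ?_⟩
    intro x hx F hF
    refine hS x hx F ?_
    intro i hi
    have h1 := hF i hi
    simp only [hT] at h1
    exact h1

/-- factorisation data extracted from membership in the ideal -/
theorem exists_factor {k : ℕ → ℕ} {Kn : ∀ n : ℕ, EuclideanSpace 𝕜 (Fin n) →ₗ[𝕜] (Fin (k n) → 𝕜)}
    {K : HilbSum 𝕜 p →L[𝕜] SupSum 𝕜 k} (hK : IsKMap k Kn K) (T : Ell 𝕜 p →L[𝕜] C0 𝕜)
    (hT : T ∈ closedIdeal K (Ell 𝕜 p) (C0 𝕜)) :
    ∃ c : ℝ, 0 < c ∧ ∃ (r : ℕ) (B : Fin r → (Ell 𝕜 p →L[𝕜] HilbSum 𝕜 p)),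
      ∀ x : Ell 𝕜 p, ‖x‖ ≤ 1 → 1 ≤ ‖T x‖ → ∃ (i : Fin r) (n : ℕ), c ≤ ‖(B i x) n‖ := by
  classical
  obtain ⟨η, hη, r, B, hB⟩ := closedIdeal_factor K T hT
  refine ⟨η / 4, by positivity, r, B, ?_⟩
  intro x hx hTx
  obtain ⟨i, hi⟩ := hB x hx hTx
  by_contra hcon
  push Not at hcon
  have h1 : ∀ n, ‖(K (B i x) : lp (fun n : ℕ => Fin (k n) → 𝕜) ∞) n‖ ≤ 2 * (η / 4) := by
    intro n
    rw [hK.diag]
    refine (hK.upper n _).trans ?_
    have := (hcon i n).le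
    linarith
  have h2 : ‖K (B i x)‖ ≤ 2 * (η / 4) := lp.norm_le_of_forall_le (by positivity) h1
  linarith

end

end Pool.Agent.R302.FS
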