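import Pool.Agent.R302.FS.Low
import Pool.Agent.R302.FS.HighT
import Pool.Agent.R302.FS.KExist

/-!
The spaces and notions of the statement, as named types, and the passage from the working
definitions (`Defs.lean`) to them.
-/

set_option autoImplicit false

noncomputable section

open scoped ENNReal Topology
open Filter

namespace Pool.Agent.R302.FSS

/-- The `ell_infinity`-sum of a sequence of normed spaces: bounded sequences, with the supremum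
norm. -/
def LInf (E : ℕ → Type) [∀ n, NormedAddCommGroup (E n)] : Type := lp E ∞

instance iLInf1 (E : ℕ → Type) [∀ n, NormedAddCommGroup (E n)] : NormedAddCommGroup (LInf E) :=
  lp.normedAddCommGroup

instance iLInf2 (𝕜 : Type) [RCLike 𝕜] (E : ℕ → Type) [∀ n, NormedAddCommGroup (E n)]
    [∀ n, NormedSpace 𝕜 (E n)] : NormedSpace 𝕜 (LInf E) :=
  lp.instNormedSpace

/-- the `n`-th term of a point of the `ell_infinity`-sum -/
def LInf.term {E : ℕ → Type} [∀ n, NormedAddCommGroup (E n)] (x : LInf E) (n : ℕ) : E n :=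
  @Subtype.val _ _ x n

/-- The norms of the terms tend to zero. -/
def NullNorms {E : ℕ → Type} [∀ n, NormedAddCommGroup (E n)] (x : LInf E) : Prop :=
  Tendsto (fun n => ‖x.term n‖) atTop (𝓝 0)

theorem null_zero {E : ℕ → Type} [∀ n, NormedAddCommGroup (E n)] :
    NullNorms (0 : LInf E) := by
  have h : ∀ n, ‖(0 : LInf E).term n‖ = 0 := fun n => by
    show ‖((0 : lp E ∞) : ∀ n, E n) n‖ = 0
    simp
  simp [NullNorms, h]

theorem null_add {E : ℕ → Type} [∀ n, NormedAddCommGroup (E n)] {a b : LInf E}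
    (ha : NullNorms a) (hb : NullNorms b) : NullNorms (a + b) := by
  have hab : Tendsto (fun n => ‖a.term n‖ + ‖b.term n‖) atTop (𝓝 0) := by
    simpa using Filter.Tendsto.add ha hb
  refine squeeze_zero (fun n => norm_nonneg _) (fun n => ?_) hab
  exact norm_add_le _ _

theorem null_smul {𝕜 : Type} [RCLike 𝕜] {E : ℕ → Type} [∀ n, NormedAddCommGroup (E n)]
    [∀ n, NormedSpace 𝕜 (E n)] (c : 𝕜) {a : LInf E} (ha : NullNorms a) :
    NullNorms (c • a) := by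
  have h : Tendsto (fun n => ‖c‖ * ‖a.term n‖) atTop (𝓝 0) := by
    simpa using Filter.Tendsto.const_mul ‖c‖ ha
  refine squeeze_zero (fun n => norm_nonneg _) (fun n => ?_) h
  exact (norm_smul_le _ _)

/-- The sequences whose norms tend to zero, as a subspace of the `ell_infinity`-sum. -/
def nullSub (𝕜 : Type) [RCLike 𝕜] (E : ℕ → Type) [∀ n, NormedAddCommGroup (E n)]
    [∀ n, NormedSpace 𝕜 (E n)] : Submodule 𝕜 (LInf E) where
  carrier := {x | NullNorms x}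
  zero_mem' := null_zero
  add_mem' := null_add
  smul_mem' := fun c _ h => null_smul c h

/-- The `c_0`-sum of a sequence of normed spaces `E n`: the closed subspace of their
`ell_infinity`-sum (with the supremum norm) made of the sequences whose norms tend to zero. -/
def C0Sum (𝕜 : Type) [RCLike 𝕜] (E : ℕ → Type) [∀ n, NormedAddCommGroup (E n)]
    [∀ n, NormedSpace 𝕜 (E n)] : Type := nullSub 𝕜 E

instance iC0Sum1 (𝕜 : Type) [RCLike 𝕜] (E : ℕ → Type) [∀ n, NormedAddCommGroup (E n)]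
    [∀ n, NormedSpace 𝕜 (E n)] : NormedAddCommGroup (C0Sum 𝕜 E) :=
  Submodule.normedAddCommGroup (nullSub 𝕜 E)

instance iC0Sum2 (𝕜 : Type) [RCLike 𝕜] (E : ℕ → Type) [∀ n, NormedAddCommGroup (E n)]
    [∀ n, NormedSpace 𝕜 (E n)] : NormedSpace 𝕜 (C0Sum 𝕜 E) :=
  Submodule.normedSpace (nullSub 𝕜 E)

/-- the `n`-th term of a point of the `c_0`-sum -/
def C0Sum.term {𝕜 : Type} [RCLike 𝕜] {E : ℕ → Type} [∀ n, NormedAddCommGroup (E n)]
    [∀ n, NormedSpace 𝕜 (E n)] (x : C0Sum 𝕜 E) (n : ℕ) : E n :=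
  LInf.term (@Subtype.val _ _ x) n

/-- The sequence space `ell_p` over `𝕜`. -/
def Ell (𝕜 : Type) [RCLike 𝕜] (p : ℝ≥0∞) : Type := lp (fun _ : ℕ => 𝕜) p

instance iEll1 (𝕜 : Type) [RCLike 𝕜] (p : ℝ≥0∞) [Fact (1 ≤ p)] : NormedAddCommGroup (Ell 𝕜 p) :=
  lp.normedAddCommGroup

instance iEll2 (𝕜 : Type) [RCLike 𝕜] (p : ℝ≥0∞) [Fact (1 ≤ p)] : NormedSpace 𝕜 (Ell 𝕜 p) :=
  lp.instNormedSpace

/-- The space `c_0` of null sequences over `𝕜`, with the supremum norm. -/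
abbrev C0 (𝕜 : Type) [RCLike 𝕜] : Type := C0Sum 𝕜 (fun _ : ℕ => 𝕜)

/-- The `ell_p`-sum of the Hilbert spaces `ell_2^n`. -/
def HilbSum (𝕜 : Type) [RCLike 𝕜] (p : ℝ≥0∞) : Type :=
  lp (fun n : ℕ => EuclideanSpace 𝕜 (Fin n)) p

instance iHilb1 (𝕜 : Type) [RCLike 𝕜] (p : ℝ≥0∞) [Fact (1 ≤ p)] :
    NormedAddCommGroup (HilbSum 𝕜 p) :=
  lp.normedAddCommGroup

instance iHilb2 (𝕜 : Type) [RCLike 𝕜] (p : ℝ≥0∞) [Fact (1 ≤ p)] : NormedSpace 𝕜 (HilbSum 𝕜 p) :=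
  lp.instNormedSpace

/-- The `n`-th coordinate of a point of the `ell_p`-sum of the spaces `ell_2^n`. -/
def HilbSum.term {𝕜 : Type} [RCLike 𝕜] {p : ℝ≥0∞} (x : HilbSum 𝕜 p) (n : ℕ) :
    EuclideanSpace 𝕜 (Fin n) := @Subtype.val _ _ x n

/-- The space `ell_infinity^m`. -/
def FinSup (𝕜 : Type) [RCLike 𝕜] (m : ℕ) : Type := Fin m → 𝕜

instance iFinSup1 (𝕜 : Type) [RCLike 𝕜] (m : ℕ) : NormedAddCommGroup (FinSup 𝕜 m) :=
  Pi.normedAddCommGroup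

instance iFinSup2 (𝕜 : Type) [RCLike 𝕜] (m : ℕ) : NormedSpace 𝕜 (FinSup 𝕜 m) :=
  Pi.normedSpace

/-- The `c_0`-sum of the spaces `ell_infinity^{k n}`. -/
abbrev SupSum (𝕜 : Type) [RCLike 𝕜] (k : ℕ → ℕ) : Type := C0Sum 𝕜 (fun n : ℕ => FinSup 𝕜 (k n))

/-- Sequences of linear maps `ell_2^n → ell_infinity^{k n}`. -/
abbrev Maps (𝕜 : Type) [RCLike 𝕜] (k : ℕ → ℕ) : Type :=
  ∀ n : ℕ, EuclideanSpace 𝕜 (Fin n) →ₗ[𝕜] FinSup 𝕜 (k n)

/-- `K` is an operator as in the definition of the ideal: `K = diag (K_n)` where the linear maps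
`K_n : ell_2^n → ell_infinity^{k n}` satisfy `‖x‖ ≤ ‖K_n x‖ ≤ 2 ‖x‖`. -/
def IsKMap {𝕜 : Type} [RCLike 𝕜] {p : ℝ≥0∞} [Fact (1 ≤ p)] (k : ℕ → ℕ)
    (Kn : Maps 𝕜 k) (K : HilbSum 𝕜 p →L[𝕜] SupSum 𝕜 k) : Prop :=
  (∀ (n : ℕ) (x : EuclideanSpace 𝕜 (Fin n)), ‖x‖ ≤ ‖Kn n x‖ ∧ ‖Kn n x‖ ≤ 2 * ‖x‖) ∧
  ∀ (x : HilbSum 𝕜 p) (n : ℕ), (K x).term n = Kn n (x.term n)

/-- Finitely strictly singular operators: for every `ε > 0` there is `n` such that every subspace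
`E` of the domain with `dim E ≥ n` contains `x ≠ 0` with `‖T x‖ < ε ‖x‖`. -/
def FinStrictlySingular {𝕜 : Type} [RCLike 𝕜] {X Y : Type} [NormedAddCommGroup X]
    [NormedSpace 𝕜 X] [NormedAddCommGroup Y] [NormedSpace 𝕜 Y] (T : X →L[𝕜] Y) : Prop :=
  ∀ ε : ℝ, 0 < ε → ∃ n : ℕ, ∀ E : Submodule 𝕜 X, (n : Cardinal) ≤ Module.rank 𝕜 E →
    ∃ x ∈ E, x ≠ 0 ∧ ‖T x‖ < ε * ‖x‖

/-- `S` is a finite sum `∑ A i ∘ T ∘ B i`, with `A i : W → Y` and `B i : X → V` bounded. -/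
def IsFactorSum {𝕜 : Type} [RCLike 𝕜] {V W X Y : Type} [NormedAddCommGroup V]
    [NormedSpace 𝕜 V] [NormedAddCommGroup W] [NormedSpace 𝕜 W] [NormedAddCommGroup X]
    [NormedSpace 𝕜 X] [NormedAddCommGroup Y] [NormedSpace 𝕜 Y]
    (T : V →L[𝕜] W) (S : X →L[𝕜] Y) : Prop :=
  ∃ (r : ℕ) (A : Fin r → (W →L[𝕜] Y)) (B : Fin r → (X →L[𝕜] V)),
    ∀ x, S x = ∑ i, A i (T (B i x))

/-- The component `𝒥^T(X, Y)` of the closed operator ideal generated by `T : V → W`: the closure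
in the operator norm of the set of finite sums `∑ A i ∘ T ∘ B i`. -/
def closedIdeal {𝕜 : Type} [RCLike 𝕜] {V W : Type} [NormedAddCommGroup V]
    [NormedSpace 𝕜 V] [NormedAddCommGroup W] [NormedSpace 𝕜 W] (T : V →L[𝕜] W)
    (X Y : Type) [NormedAddCommGroup X] [NormedSpace 𝕜 X] [NormedAddCommGroup Y]
    [NormedSpace 𝕜 Y] : Set (X →L[𝕜] Y) :=
  closure {S | IsFactorSum T S}

theorem closedIdeal_eq {𝕜 : Type} [RCLike 𝕜] {V W : Type} [NormedAddCommGroup V]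
    [NormedSpace 𝕜 V] [NormedAddCommGroup W] [NormedSpace 𝕜 W] (T : V →L[𝕜] W)
    (X Y : Type) [NormedAddCommGroup X] [NormedSpace 𝕜 X] [NormedAddCommGroup Y]
    [NormedSpace 𝕜 Y] : closedIdeal T X Y = FS.closedIdeal T X Y := by
  unfold closedIdeal FS.closedIdeal
  congr 1
  ext S
  simp only [Set.mem_ofPred_eq, IsFactorSum]
  constructor
  · rintro ⟨r, A, B, h⟩
    refine ⟨r, A, B, ?_⟩
    ext x
    rw [h x]
    simp
  · rintro ⟨r, A, B, h⟩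
    refine ⟨r, A, B, ?_⟩
    intro x
    rw [h]
    simp

/-- The operators `ell_p → c_0` in the closed ideal generated by
`K : (⊕ ell_2^n)_{ell_p} → (⊕ ell_infinity^{k n})_{c_0}`. -/
def idealK {𝕜 : Type} [RCLike 𝕜] {p : ℝ≥0∞} [Fact (1 ≤ p)] {k : ℕ → ℕ}
    (K : HilbSum 𝕜 p →L[𝕜] SupSum 𝕜 k) : Set (Ell 𝕜 p →L[𝕜] C0 𝕜) :=
  closedIdeal K (Ell 𝕜 p) (C0 𝕜)

theorem inclusion_fails (𝕜 : Type) [RCLike 𝕜] (p : ℝ≥0∞) [Fact (1 ≤ p)] (hp1 : 1 < p)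
    (hp : p ≠ ∞) (hp2 : p ≠ 2) :
    (∃ (k : ℕ → ℕ) (Kn : Maps 𝕜 k) (K : HilbSum 𝕜 p →L[𝕜] SupSum 𝕜 k), IsKMap k Kn K) ∧
    ∃ T : Ell 𝕜 p →L[𝕜] C0 𝕜, FinStrictlySingular T ∧
      ∀ (k : ℕ → ℕ) (Kn : Maps 𝕜 k) (K : HilbSum 𝕜 p →L[𝕜] SupSum 𝕜 k),
        IsKMap k Kn K → T ∉ idealK K := by
  have h1 : 1 < p.toReal := by
    have := (ENNReal.toReal_lt_toReal ENNReal.one_ne_top hp).2 hp1
    simpa using this
  have h2 : p.toReal ≠ 2 := by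
    intro h
    apply hp2
    rw [← ENNReal.ofReal_toReal hp, h]
    simp
  constructor
  · obtain ⟨k, Kn, K, hK⟩ := FS.exists_KMap (𝕜 := 𝕜) (p := p) (by linarith)
    exact ⟨k, Kn, K, fun n x => ⟨hK.lower n x, hK.upper n x⟩, hK.diag⟩
  · have key : ∃ T : FS.Ell 𝕜 p →L[𝕜] FS.C0 𝕜, FS.FinStrictlySingular T ∧
        ∀ (k : ℕ → ℕ) (Kn : ∀ n : ℕ, EuclideanSpace 𝕜 (Fin n) →ₗ[𝕜] (Fin (k n) → 𝕜))
          (K : FS.HilbSum 𝕜 p →L[𝕜] FS.SupSum 𝕜 k), FS.IsKMap k Kn K →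
          T ∉ FS.closedIdeal K (FS.Ell 𝕜 p) (FS.C0 𝕜) := by
      rcases lt_or_gt_of_ne h2 with h | h
      · exact FS.low_case h1 h
      · exact FS.high_case h
    obtain ⟨T, hT, hT2⟩ := key
    refine ⟨T, hT, ?_⟩
    intro k Kn K hK
    have h3 := hT2 k Kn K ⟨fun n x => (hK.1 n x).1, fun n x => (hK.1 n x).2, hK.2⟩
    intro h4
    apply h3
    unfold idealK at h4
    rw [closedIdeal_eq] at h4
    exact h4

end Pool.Agent.R302.FSS
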