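import Pool.Agent.R302.FS.Rows

set_option autoImplicit false

noncomputable section

open scoped ENNReal Topology
open Filter

namespace Pool.Agent.R302.FS

variable {𝕜 : Type} [RCLike 𝕜]

/-- orthogonality expansion -/
theorem orth_sum {H : Type} [NormedAddCommGroup H] [InnerProductSpace 𝕜 H] {A J : Type}
    (SA : Finset A) (SJ : Finset J) (w : A → ℝ) (c : A → J → ℝ) (v : J → H)
    (horth : ∀ j ∈ SJ, ∀ j' ∈ SJ, j ≠ j' → ∑ a ∈ SA, w a * (c a j * c a j') = 0) :
    ∑ a ∈ SA, w a * ‖∑ j ∈ SJ, (c a j : 𝕜) • v j‖ ^ 2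
      = ∑ j ∈ SJ, (∑ a ∈ SA, w a * (c a j) ^ 2) * ‖v j‖ ^ 2 := by
  classical
  have h1 : ∀ a, ‖∑ j ∈ SJ, (c a j : 𝕜) • v j‖ ^ 2
      = ∑ j ∈ SJ, ∑ j' ∈ SJ, (c a j * c a j') * RCLike.re (inner 𝕜 (v j) (v j')) := by
    intro a
    rw [← inner_self_eq_norm_sq (𝕜 := 𝕜)]
    rw [sum_inner]
    simp only [inner_sum, inner_smul_left, inner_smul_right, map_sum]
    refine Finset.sum_congr rfl (fun j _ => Finset.sum_congr rfl (fun j' _ => ?_))
    rw [RCLike.conj_ofReal]
    rw [RCLike.re_ofReal_mul, RCLike.re_ofReal_mul]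
    ring
  calc ∑ a ∈ SA, w a * ‖∑ j ∈ SJ, (c a j : 𝕜) • v j‖ ^ 2
      = ∑ a ∈ SA, ∑ j ∈ SJ, ∑ j' ∈ SJ,
          (w a * (c a j * c a j')) * RCLike.re (inner 𝕜 (v j) (v j')) := by
        refine Finset.sum_congr rfl (fun a _ => ?_)
        rw [h1, Finset.mul_sum]
        refine Finset.sum_congr rfl (fun j _ => ?_)
        rw [Finset.mul_sum]
        refine Finset.sum_congr rfl (fun j' _ => ?_)
        ring
    _ = ∑ j ∈ SJ, ∑ j' ∈ SJ, (∑ a ∈ SA, w a * (c a j * c a j')) *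
          RCLike.re (inner 𝕜 (v j) (v j')) := by
        rw [Finset.sum_comm]
        refine Finset.sum_congr rfl (fun j _ => ?_)
        rw [Finset.sum_comm]
        refine Finset.sum_congr rfl (fun j' _ => ?_)
        rw [Finset.sum_mul]
    _ = ∑ j ∈ SJ, (∑ a ∈ SA, w a * (c a j) ^ 2) * ‖v j‖ ^ 2 := by
        refine Finset.sum_congr rfl (fun j hj => ?_)
        rw [Finset.sum_eq_single j]
        · rw [inner_self_eq_norm_sq (𝕜 := 𝕜)]
          congr 1
          refine Finset.sum_congr rfl (fun a _ => by ring)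
        · intro j' hj' hne
          rw [horth j hj j' hj' (Ne.symm hne), zero_mul]
        · intro h; exact absurd hj h

/-- Walsh functions indexed by finite sets -/
def W (a j : Finset ℕ) : ℝ := ∏ i ∈ a, (if i ∈ j then (-1 : ℝ) else 1)

theorem W_symm (a j : Finset ℕ) : W a j = W j a := by
  classical
  have h : ∀ a j : Finset ℕ, W a j = (-1) ^ (a ∩ j).card := by
    intro a j
    unfold W
    rw [Finset.prod_ite]
    simp only [Finset.prod_const, one_pow, mul_one]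
    rw [Finset.filter_mem_eq_inter]
  rw [h, h, Finset.inter_comm]

theorem W_sq (a j : Finset ℕ) : W a j ^ 2 = 1 := by
  unfold W
  rw [← Finset.prod_pow]
  refine Finset.prod_eq_one (fun i _ => ?_)
  split_ifs <;> norm_num

theorem W_abs (a j : Finset ℕ) : |W a j| = 1 := by
  have h := W_sq a j
  have h2 : |W a j| ^ 2 = 1 := by rw [sq_abs, h]
  nlinarith [abs_nonneg (W a j)]

theorem W_orth (k : ℕ) (j j' : Finset ℕ) (hj : j ⊆ Finset.range k) (hj' : j' ⊆ Finset.range k)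
    (hne : j ≠ j') : ∑ a ∈ (Finset.range k).powerset, W a j * W a j' = 0 := by
  classical
  have h1 : ∑ a ∈ (Finset.range k).powerset, W a j * W a j'
      = ∏ i ∈ Finset.range k,
        (1 + (if i ∈ j then (-1 : ℝ) else 1) * (if i ∈ j' then (-1 : ℝ) else 1)) := by
    rw [Finset.prod_one_add]
    refine Finset.sum_congr rfl (fun a _ => ?_)
    unfold W
    rw [Finset.prod_mul_distrib]
  rw [h1]
  obtain ⟨i, hi⟩ : ∃ i, ¬ (i ∈ j ↔ i ∈ j') := by
    by_contra h
    push Not at h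
    exact hne (Finset.ext h)
  have hik : i ∈ Finset.range k := by
    by_cases h : i ∈ j
    · exact hj h
    · have : i ∈ j' := by tauto
      exact hj' this
  refine Finset.prod_eq_zero hik ?_
  by_cases h : i ∈ j
  · have h' : i ∉ j' := by tauto
    simp [h, h']
  · have h' : i ∈ j' := by tauto
    simp [h, h']

/-- coordinates and rows -/
abbrev WI : Type := ℕ × Finset ℕ

/-- support of a row -/
def WC (r : WI) : Finset WI := {r.1} ×ˢ (Finset.range r.1).powerset

/-- size of the entries in block `l` -/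
def Wm (Q : ℝ) (l : ℕ) : ℝ := ((2 : ℝ) ^ l) ^ (-(1 / Q))

theorem Wm_pos (Q : ℝ) (l : ℕ) : 0 < Wm Q l := by unfold Wm; positivity

theorem Wm_pow (Q : ℝ) (hQ : 0 < Q) (l : ℕ) : Wm Q l ^ Q = ((2 : ℝ) ^ l)⁻¹ := by
  unfold Wm
  rw [← Real.rpow_mul (by positivity)]
  rw [show -(1 / Q) * Q = -1 by field_simp]
  rw [Real.rpow_neg_one]

open Classical in
/-- the matrix -/
def Wt (Q : ℝ) (r u : WI) : ℝ :=
  if u.1 = r.1 ∧ r.2 ⊆ Finset.range r.1 ∧ u.2 ⊆ Finset.range r.1 then Wm Q r.1 * W r.2 u.2 else 0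

theorem Wt_supp (Q : ℝ) (r u : WI) (h : u ∉ WC r) : Wt Q r u = 0 := by
  unfold Wt
  rw [if_neg]
  rintro ⟨h1, _, h3⟩
  apply h
  unfold WC
  rw [Finset.mem_product]
  exact ⟨by simpa using h1, by simpa using h3⟩

theorem Wt_abs_le (Q : ℝ) (r u : WI) : |Wt Q r u| ≤ Wm Q u.1 := by
  unfold Wt
  split_ifs with h
  · rw [abs_mul, W_abs, mul_one, abs_of_pos (Wm_pos _ _), h.1]
  · simpa using (Wm_pos Q u.1).le

theorem W_card (k : ℕ) : ((Finset.range k).powerset.card : ℝ) = 2 ^ k := by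
  simp

theorem Wt_row_norm (Q : ℝ) (hQ : 0 < Q) (r : WI) : ∑ u ∈ WC r, |Wt Q r u| ^ Q ≤ 1 := by
  have h1 : ∀ u ∈ WC r, |Wt Q r u| ^ Q ≤ ((2 : ℝ) ^ r.1)⁻¹ := by
    intro u hu
    have h2 : u.1 = r.1 := by
      unfold WC at hu
      have := (Finset.mem_product.1 hu).1
      simpa using this
    calc |Wt Q r u| ^ Q ≤ (Wm Q u.1) ^ Q :=
          Real.rpow_le_rpow (abs_nonneg _) (Wt_abs_le Q r u) hQ.le
      _ = ((2 : ℝ) ^ r.1)⁻¹ := by rw [h2, Wm_pow Q hQ]
  refine (Finset.sum_le_sum h1).trans ?_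
  rw [Finset.sum_const, nsmul_eq_mul]
  have h3 : ((WC r).card : ℝ) = 2 ^ r.1 := by
    unfold WC
    rw [Finset.card_product]
    simp
  rw [h3]
  rw [mul_inv_cancel₀ (by positivity)]

/-- weighted orthogonality of rows over any finite set of coordinates containing the supports -/
theorem Wt_orth (Q : ℝ) (V : Finset WI) (r r' : WI) (hr : WC r ⊆ V) (hne : r ≠ r') :
    ∑ u ∈ V, Wm Q u.1 ^ (Q - 2) * (Wt Q r u * Wt Q r' u) = 0 := by
  classical
  rw [← Finset.sum_subset hr]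
  · by_cases h : r.1 = r'.1 ∧ r.2 ⊆ Finset.range r.1 ∧ r'.2 ⊆ Finset.range r.1
    · obtain ⟨h1, h2, h3⟩ := h
      have hne2 : r.2 ≠ r'.2 := fun h => hne (Prod.ext h1 h)
      unfold WC
      rw [Finset.sum_product]
      simp only [Finset.sum_singleton]
      have h4 : ∀ y ∈ (Finset.range r.1).powerset,
          Wm Q r.1 ^ (Q - 2) * (Wt Q r (r.1, y) * Wt Q r' (r.1, y))
          = (Wm Q r.1 ^ (Q - 2) * (Wm Q r.1 * Wm Q r.1)) * (W y r.2 * W y r'.2) := by
        intro y hy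
        have hy' : y ⊆ Finset.range r.1 := by simpa using hy
        have e1 : Wt Q r (r.1, y) = Wm Q r.1 * W r.2 y := by
          unfold Wt
          rw [if_pos ⟨rfl, h2, hy'⟩]
        have e2 : Wt Q r' (r.1, y) = Wm Q r.1 * W r'.2 y := by
          unfold Wt
          rw [if_pos ⟨h1, h1 ▸ h3, h1 ▸ hy'⟩, h1]
        rw [e1, e2, W_symm r.2 y, W_symm r'.2 y]
        ring
      rw [Finset.sum_congr rfl h4, ← Finset.mul_sum, W_orth _ _ _ h2 h3 hne2, mul_zero]
    · refine Finset.sum_eq_zero (fun u hu => ?_)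
      have hu1 : u.1 = r.1 := by
        unfold WC at hu
        simpa using (Finset.mem_product.1 hu).1
      by_cases hA : Wt Q r u = 0
      · rw [hA]; ring
      by_cases hB : Wt Q r' u = 0
      · rw [hB]; ring
      exfalso
      unfold Wt at hA hB
      have hA' := (ite_ne_right_iff.1 hA).1
      have hB' := (ite_ne_right_iff.1 hB).1
      apply h
      refine ⟨?_, hA'.2.1, ?_⟩
      · rw [← hA'.1, hB'.1]
      · rw [← hA'.1, hB'.1]; exact hB'.2.1
  · intro u _ hu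
    rw [Wt_supp Q r u hu]; ring

end Pool.Agent.R302.FS
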